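import Mathlib

set_option autoImplicit false

namespace Pool.Agent.H48Z.OrdRam

open Finset

/-- every complete interval minor of the ordered relation `R` has at most `τ` parts -/
def IMle {V : Type} [LinearOrder V] (R : V → V → Prop) (τ : ℕ) : Prop :=
  ∀ (S : Finset ℕ) (f : ℕ → ℕ → V),
    (∀ i ∈ S, ∀ i' ∈ S, i < i' → ∀ j ∈ S, ∀ j' ∈ S, f i j < f i' j') →
    (∀ i ∈ S, ∀ j ∈ S, i < j → R (f i j) (f j i)) → S.card ≤ τ

/-- every clique of the ordered relation `R` has at most `ω` vertices -/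
def CLle {V : Type} [LinearOrder V] (R : V → V → Prop) (ω : ℕ) : Prop :=
  ∀ K : Finset V, (∀ x ∈ K, ∀ y ∈ K, x < y → R x y) → K.card ≤ ω

lemma IMle.mono {V : Type} [LinearOrder V] {R R' : V → V → Prop} {τ τ' : ℕ} (h : IMle R τ)
    (hR : ∀ x y, R' x y → R x y) (hτ : τ ≤ τ') : IMle R' τ' :=
  fun S f h1 h2 => (h S f h1 fun i hi j hj hij => hR _ _ (h2 i hi j hj hij)).trans hτ

lemma CLle.mono {V : Type} [LinearOrder V] {R R' : V → V → Prop} {ω ω' : ℕ} (h : CLle R ω)
    (hR : ∀ x y, R' x y → R x y) (hω : ω ≤ ω') : CLle R' ω' :=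
  fun K h1 => (h K fun x hx y hy hxy => hR _ _ (h1 x hx y hy hxy)).trans hω

lemma IMle.comap {V W : Type} [LinearOrder V] [LinearOrder W] {R : V → V → Prop} {τ : ℕ}
    (h : IMle R τ) (g : W → V) (hg : StrictMono g) : IMle (fun x y => R (g x) (g y)) τ :=
  fun S f h1 h2 => h S (fun i j => g (f i j))
    (fun i hi i' hi' hii j hj j' hj' => hg (h1 i hi i' hi' hii j hj j' hj')) h2

lemma IMle_card {V : Type} [LinearOrder V] [Fintype V] (R : V → V → Prop) :
    IMle R (Fintype.card V) := by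
  intro S f h1 _
  rw [← Finset.card_univ]
  apply Finset.card_le_card_of_injOn (fun i => f i i) (fun _ _ => Finset.mem_univ _)
  intro i hi j hj hij
  rcases lt_trichotomy i j with h | h | h
  · exact absurd hij (h1 i hi j hj h i hi j hj).ne
  · exact h
  · exact absurd hij (h1 j hj i hi h j hj i hi).ne'

/-- half of a finite set of naturals can be chosen with separators in between -/
lemma exists_half (T : Finset ℕ) : ∃ T0 T1 : Finset ℕ, T0 ⊆ T ∧ T1 ⊆ T ∧ T.card = T0.card + T1.card ∧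
    (∀ i ∈ T0, ∀ i' ∈ T0, i < i' → ∃ k ∈ T, i < k ∧ k < i') ∧
    (∀ i ∈ T1, ∀ i' ∈ T1, i < i' → ∃ k ∈ T, i < k ∧ k < i') := by
  let r : ℕ → ℕ := fun i => (T.filter (· < i)).card
  have key : ∀ i ∈ T, ∀ i' ∈ T, i < i' → (∃ k ∈ T, i < k ∧ k < i') ∨ r i' = r i + 1 := by
    intro i hi i' _ hii
    by_cases h : ∃ k ∈ T, i < k ∧ k < i'
    · exact Or.inl h
    · right
      push Not at h
      have h1 : T.filter (· < i') = insert i (T.filter (· < i)) := by
        ext k
        simp only [Finset.mem_filter, Finset.mem_insert]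
        constructor
        · rintro ⟨hk, hk'⟩
          rcases lt_trichotomy k i with h2 | h2 | h2
          · exact Or.inr ⟨hk, h2⟩
          · exact Or.inl h2
          · exact absurd hk' (not_lt.mpr (h k hk h2))
        · rintro (rfl | ⟨hk, hk'⟩)
          · exact ⟨hi, hii⟩
          · exact ⟨hk, hk'.trans hii⟩
      simp only [r]
      rw [h1, Finset.card_insert_of_notMem (by simp)]
  refine ⟨T.filter (fun i => r i % 2 = 0), T.filter (fun i => ¬ r i % 2 = 0),
    Finset.filter_subset _ _, Finset.filter_subset _ _,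
    (Finset.card_filter_add_card_filter_not _).symm, ?_, ?_⟩
  · intro i hi i' hi' hii
    rw [Finset.mem_filter] at hi hi'
    rcases key i hi.1 i' hi'.1 hii with h | h
    · exact h
    · omega
  · intro i hi i' hi' hii
    rw [Finset.mem_filter] at hi hi'
    rcases key i hi.1 i' hi'.1 hii with h | h
    · exact h
    · omega

/-- substitution of ordered relations -/
def lexR {A B : Type} (R : A → A → Prop) (R' : B → B → Prop) (x y : A ×ₗ B) : Prop :=
  ((ofLex x).1 = (ofLex y).1 ∧ R' (ofLex x).2 (ofLex y).2) ∨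
    ((ofLex x).1 ≠ (ofLex y).1 ∧ R (ofLex x).1 (ofLex y).1)

lemma fst_le_of_lt {A B : Type} [LinearOrder A] [LinearOrder B] {x y : A ×ₗ B} (h : x < y) :
    (ofLex x).1 ≤ (ofLex y).1 := by
  rcases Prod.Lex.lt_iff.mp h with h1 | h1
  · exact h1.le
  · exact h1.1.le

lemma snd_lt_of_lt {A B : Type} [LinearOrder A] [LinearOrder B] {x y : A ×ₗ B} (h : x < y)
    (h' : (ofLex x).1 = (ofLex y).1) : (ofLex x).2 < (ofLex y).2 := by
  rcases Prod.Lex.lt_iff.mp h with h1 | h1
  · exact absurd h' h1.ne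
  · exact h1.2

theorem IMle_lex {A B : Type} [LinearOrder A] [LinearOrder B] {R : A → A → Prop}
    {R' : B → B → Prop} {τ ω τ' : ℕ} (h1 : IMle R τ) (h2 : CLle R ω) (h3 : IMle R' τ') :
    IMle (lexR R R') (2 * τ + ω * τ') := by
  classical
  intro S f hsep hedge
  let p : ℕ → ℕ → A := fun i j => (ofLex (f i j)).1
  let P := S.filter (fun i => ∀ j ∈ S, p i j = p i i)
  let T := S.filter (fun i => ¬ ∀ j ∈ S, p i j = p i i)
  have hS : S.card = P.card + T.card := (Finset.card_filter_add_card_filter_not _).symm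
  have hle : ∀ i ∈ S, ∀ i' ∈ S, i < i' → ∀ j ∈ S, ∀ j' ∈ S, p i j ≤ p i' j' :=
    fun i hi i' hi' hii j hj j' hj' => fst_le_of_lt (hsep i hi i' hi' hii j hj j' hj')
  have hTS : T ⊆ S := Finset.filter_subset _ _
  have hPS : P ⊆ S := Finset.filter_subset _ _
  have hT : ∀ U ⊆ T, (∀ i ∈ U, ∀ i' ∈ U, i < i' → ∃ k ∈ T, i < k ∧ k < i') → U.card ≤ τ := by
    intro U hU hsepU
    have hlt : ∀ i ∈ U, ∀ i' ∈ U, i < i' → ∀ j ∈ U, ∀ j' ∈ U, p i j < p i' j' := by
      intro i hi i' hi' hii j hj j' hj'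
      obtain ⟨k, hk, hik, hki⟩ := hsepU i hi i' hi' hii
      have hkS := hTS hk
      have hk2 := (Finset.mem_filter.mp hk).2
      push Not at hk2
      obtain ⟨l, hl, hne⟩ := hk2
      have a1 := hle i (hTS (hU hi)) k hkS hik j (hTS (hU hj)) l hl
      have a2 := hle i (hTS (hU hi)) k hkS hik j (hTS (hU hj)) k hkS
      have a3 := hle k hkS i' (hTS (hU hi')) hki l hl j' (hTS (hU hj'))
      have a4 := hle k hkS i' (hTS (hU hi')) hki k hkS j' (hTS (hU hj'))
      rcases lt_or_gt_of_ne hne with h | h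
      · exact lt_of_le_of_lt a1 (lt_of_lt_of_le h a4)
      · exact lt_of_le_of_lt a2 (lt_of_lt_of_le h a3)
    refine h1 U p hlt ?_
    intro i hi j hj hij
    rcases hedge i (hTS (hU hi)) j (hTS (hU hj)) hij with h | h
    · exact absurd h.1 (hlt i hi j hj hij j hj i hi).ne
    · exact h.2
  obtain ⟨T0, T1, hT0, hT1, hTc, hs0, hs1⟩ := exists_half T
  have hTτ : T.card ≤ 2 * τ := by
    have := hT T0 hT0 hs0
    have := hT T1 hT1 hs1
    omega
  have hpure : ∀ i ∈ P, ∀ j ∈ S, p i j = p i i := fun i hi => (Finset.mem_filter.mp hi).2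
  let K := P.image (fun i => p i i)
  have hK : K.card ≤ ω := by
    apply h2
    intro x hx y hy hxy
    obtain ⟨i, hi, rfl⟩ := Finset.mem_image.mp hx
    obtain ⟨j, hj, rfl⟩ := Finset.mem_image.mp hy
    have hij : i < j := by
      by_contra hcon
      rcases (not_lt.mp hcon).eq_or_lt with h | h
      · rw [h] at hxy
        exact lt_irrefl _ hxy
      · exact absurd (hle j (hPS hj) i (hPS hi) h j (hPS hj) i (hPS hi)) (not_le.mpr hxy)
    have e1 := hpure i hi j (hPS hj)
    have e2 := hpure j hj i (hPS hi)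
    rcases hedge i (hPS hi) j (hPS hj) hij with h | h
    · have h' : p i j = p j i := h.1
      rw [e1, e2] at h'
      exact absurd h' hxy.ne
    · have h' : R (p i j) (p j i) := h.2
      rwa [e1, e2] at h'
  have hP : P.card ≤ τ' * K.card := by
    apply Finset.card_le_mul_card_image
    intro a _
    refine h3 _ (fun i j => (ofLex (f i j)).2) ?_ ?_
    · intro i hi i' hi' hii j hj j' hj'
      rw [Finset.mem_filter] at hi hi' hj hj'
      apply snd_lt_of_lt (hsep i (hPS hi.1) i' (hPS hi'.1) hii j (hPS hj.1) j' (hPS hj'.1))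
      change p i j = p i' j'
      rw [hpure i hi.1 j (hPS hj.1), hpure i' hi'.1 j' (hPS hj'.1), hi.2, hi'.2]
    · intro i hi j hj hij
      rw [Finset.mem_filter] at hi hj
      rcases hedge i (hPS hi.1) j (hPS hj.1) hij with h | h
      · exact h.2
      · exfalso
        apply h.1
        change p i j = p j i
        rw [hpure i hi.1 j (hPS hj.1), hpure j hj.1 i (hPS hi.1), hi.2, hj.2]
  have : τ' * K.card ≤ ω * τ' := by rw [mul_comm]; exact Nat.mul_le_mul_right _ hK
  omega

/-- lexicographic powers of a colouring -/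
theorem exists_pow {κ : Type} {N τ ω : ℕ} (hω : 2 ≤ ω) (c : Fin N → Fin N → κ)
    (h1 : ∀ b, IMle (fun x y => c x y = b) τ) (h2 : ∀ b, CLle (fun x y => c x y = b) ω)
    (b0 : κ) (k : ℕ) :
    ∃ (c' : Fin (N ^ k) → Fin (N ^ k) → κ) (τ' : ℕ), τ' + 2 * τ ≤ ω ^ k * (1 + 2 * τ) ∧
      ∀ b, IMle (fun x y => c' x y = b) τ' := by
  classical
  induction k with
  | zero =>
    refine ⟨fun _ _ => b0, 1, by simp, fun b => ?_⟩
    exact (IMle_card _).mono (fun _ _ h => h) (by simp)
  | succ k ih =>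
    obtain ⟨c', τ', hτ', hc'⟩ := ih
    let g : Fin (N ^ (k + 1)) ≃o (Fin N ×ₗ Fin (N ^ k)) :=
      Fintype.orderIsoFinOfCardEq _ (by
        rw [Fintype.card_lex, Fintype.card_prod, Fintype.card_fin, Fintype.card_fin, pow_succ'])
    let d : (Fin N ×ₗ Fin (N ^ k)) → (Fin N ×ₗ Fin (N ^ k)) → κ := fun x y =>
      if (ofLex x).1 = (ofLex y).1 then c' (ofLex x).2 (ofLex y).2 else c (ofLex x).1 (ofLex y).1
    refine ⟨fun x y => d (g x) (g y), 2 * τ + ω * τ', ?_, fun b => ?_⟩
    · have h3 := Nat.mul_le_mul_left ω hτ'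
      have h4 : 2 * (2 * τ) ≤ ω * (2 * τ) := Nat.mul_le_mul_right _ hω
      rw [pow_succ', mul_assoc]
      rw [mul_add] at h3
      omega
    · have h3 := (IMle_lex (h1 b) (h2 b) (hc' b)).comap g g.strictMono
      refine h3.mono ?_ le_rfl
      intro x y hxy
      simp only [d] at hxy
      split_ifs at hxy with h
      · exact Or.inl ⟨h, hxy⟩
      · exact Or.inr ⟨h, hxy⟩

/-- the counting lower bound for diagonal Ramsey numbers -/
theorem erdos (N a : ℕ) (ha : 1 ≤ a) (hN : N ≤ 2 ^ a) :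
    ∃ c : Fin N → Fin N → Bool, ∀ b, CLle (fun x y => c x y = b) (2 * a) := by
  classical
  set w := 2 * a + 1 with hw
  let bad : Finset (Fin N) × Bool → Finset (Fin N × Fin N → Bool) := fun q =>
    Fintype.piFinset fun p => if p ∈ (q.1 ×ˢ q.1).filter (fun x => x.1 < x.2) then {q.2} else univ
  let I : Finset (Finset (Fin N) × Bool) := (powersetCard w univ) ×ˢ univ
  have hch : w.choose 2 = w * a := by
    rw [Nat.choose_two_right, hw]
    simp only [Nat.add_sub_cancel]
    rw [show (2 * a + 1) * (2 * a) = (2 * a + 1) * a * 2 by ring]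
    exact Nat.mul_div_cancel _ (by norm_num)
  have hbad : ∀ q ∈ I, (bad q).card * 2 ^ (w * a) = 2 ^ (N * N) := by
    intro q hq
    have hq1 : q.1.card = w := (Finset.mem_powersetCard.mp (Finset.mem_product.mp hq).1).2
    have hc : ((q.1 ×ˢ q.1).filter (fun x => x.1 < x.2)).card = w * a := by
      rw [Finset.card_product_filter_lt, hq1, hch]
    simp only [bad]
    generalize (q.1 ×ˢ q.1).filter (fun x => x.1 < x.2) = P at hc ⊢
    rw [Fintype.card_piFinset, ← hc]
    have h1 : ∀ p : Fin N × Fin N,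
        (if p ∈ P then ({q.2} : Finset Bool) else univ).card = if p ∈ P then 1 else 2 := by
      intro p
      split_ifs <;> simp
    simp only [h1]
    rw [Finset.prod_ite, Finset.prod_const_one, one_mul, Finset.prod_const, ← pow_add]
    congr 1
    have h2 := Finset.card_filter_add_card_filter_not (s := (univ : Finset (Fin N × Fin N)))
      (fun p => p ∈ P)
    rw [Finset.filter_mem_eq_inter, Finset.univ_inter, Finset.card_univ, Fintype.card_prod,
      Fintype.card_fin] at h2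
    omega
  have hI : I.card < 2 ^ (w * a) := by
    simp only [I]
    rw [Finset.card_product, Finset.card_powersetCard, Finset.card_univ, Finset.card_univ,
      Fintype.card_fin, Fintype.card_bool]
    have h1 : N.choose w * w.factorial ≤ N ^ w := by
      rw [mul_comm, ← Nat.descFactorial_eq_factorial_mul_choose]
      exact Nat.descFactorial_le_pow _ _
    have h2 : 3 ≤ w.factorial := le_trans (by omega) (Nat.self_le_factorial w)
    have h3 : N ^ w ≤ 2 ^ (w * a) := by
      rw [mul_comm w a, pow_mul]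
      exact Nat.pow_le_pow_left hN _
    have h4 : N.choose w * 3 ≤ N.choose w * w.factorial := Nat.mul_le_mul_left _ h2
    have h5 : 0 < 2 ^ (w * a) := by positivity
    omega
  have hlt : (I.biUnion bad).card < (univ : Finset (Fin N × Fin N → Bool)).card := by
    have h1 : (I.biUnion bad).card * 2 ^ (w * a) ≤ I.card * 2 ^ (N * N) := by
      calc (I.biUnion bad).card * 2 ^ (w * a) ≤ (∑ q ∈ I, (bad q).card) * 2 ^ (w * a) :=
            Nat.mul_le_mul_right _ Finset.card_biUnion_le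
        _ = ∑ q ∈ I, (bad q).card * 2 ^ (w * a) := Finset.sum_mul _ _ _
        _ = ∑ _q ∈ I, 2 ^ (N * N) := Finset.sum_congr rfl hbad
        _ = _ := by simp
    have h2 : I.card * 2 ^ (N * N) < 2 ^ (w * a) * 2 ^ (N * N) :=
      Nat.mul_lt_mul_of_pos_right hI (by positivity)
    have h3 : (univ : Finset (Fin N × Fin N → Bool)).card = 2 ^ (N * N) := by simp
    rw [h3]
    have h4 := h1.trans_lt h2
    rw [mul_comm (2 ^ (w * a))] at h4
    exact lt_of_mul_lt_mul_right h4 (Nat.zero_le _)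
  obtain ⟨c, -, hc⟩ := Finset.exists_mem_notMem_of_card_lt_card hlt
  refine ⟨fun x y => c (x, y), fun b K hK => ?_⟩
  by_contra hcon
  rw [not_le] at hcon
  obtain ⟨K', hK', hK'c⟩ := Finset.exists_subset_card_eq (s := K) (n := w) (by omega)
  apply hc
  rw [Finset.mem_biUnion]
  refine ⟨(K', b), ?_, ?_⟩
  · simp only [I, Finset.mem_product, Finset.mem_powersetCard]
    exact ⟨⟨Finset.subset_univ _, hK'c⟩, Finset.mem_univ _⟩
  · simp only [bad, Fintype.mem_piFinset]
    intro p
    split_ifs with h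
    · rw [Finset.mem_filter, Finset.mem_product] at h
      rw [Finset.mem_singleton]
      exact hK p.1 (hK' h.1.1) p.2 (hK' h.1.2) h.2
    · exact Finset.mem_univ _

/-- the four-colouring -/
theorem construction (p : ℕ) (hp : 1 ≤ p) :
    ∃ c : Fin (2 ^ (p * 2 ^ p * 2 ^ p * 2 ^ p)) → Fin (2 ^ (p * 2 ^ p * 2 ^ p * 2 ^ p)) → Bool × Bool,
      ∀ b, IMle (fun x y => c x y = b) (2 ^ (12 * (p * 2 ^ p))) := by
  set k := 2 ^ p with hk
  set a := p * k with ha
  have hpk : p < k := Nat.lt_two_pow_self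
  have ha1 : 1 ≤ a := Nat.mul_pos hp (by omega)
  obtain ⟨c0, hc0⟩ := erdos (2 ^ a) a ha1 le_rfl
  obtain ⟨c1, τ1, hτ1, hc1⟩ := exists_pow (τ := 2 ^ a) (ω := 2 * a) (by omega) c0
    (fun b => (IMle_card _).mono (fun _ _ h => h) (by simp)) hc0 true k
  have hak : 1 ≤ a * k := Nat.mul_pos ha1 (by omega)
  obtain ⟨r, hr⟩ := erdos ((2 ^ a) ^ k) (a * k) hak (pow_mul 2 a k).ge
  obtain ⟨c2, τ2, hτ2, hc2⟩ := exists_pow (τ := τ1) (ω := 2 * (a * k)) (by omega)
    (fun x y => (c1 x y, r x y))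
    (fun b => (hc1 b.1).mono (fun _ _ h => congrArg Prod.fst h) le_rfl)
    (fun b => (hr b.2).mono (fun _ _ h => congrArg Prod.snd h) le_rfl) (true, true) k
  have hw0 : (2 * a) ^ k ≤ 2 ^ (3 * a) := by
    have h1 : 2 * a ≤ 2 ^ (3 * p) := by
      calc 2 * a = 2 * p * k := by rw [ha]; ring
        _ ≤ k * k * k := by
          apply Nat.mul_le_mul_right
          exact Nat.mul_le_mul (by omega) hpk.le
        _ = 2 ^ (3 * p) := by rw [hk, ← pow_add, ← pow_add]; congr 1; ring
    calc (2 * a) ^ k ≤ (2 ^ (3 * p)) ^ k := Nat.pow_le_pow_left h1 _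
      _ = 2 ^ (3 * a) := by rw [← pow_mul, ha, mul_assoc]
  have hw1 : (2 * (a * k)) ^ k ≤ 2 ^ (4 * a) := by
    have h1 : 2 * (a * k) ≤ 2 ^ (4 * p) := by
      calc 2 * (a * k) = 2 * p * k * k := by rw [ha]; ring
        _ ≤ k * k * k * k := by
          apply Nat.mul_le_mul_right
          apply Nat.mul_le_mul_right
          exact Nat.mul_le_mul (by omega) hpk.le
        _ = 2 ^ (4 * p) := by rw [hk, ← pow_add, ← pow_add, ← pow_add]; congr 1; ring
    calc (2 * (a * k)) ^ k ≤ (2 ^ (4 * p)) ^ k := Nat.pow_le_pow_left h1 _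
      _ = 2 ^ (4 * a) := by rw [← pow_mul, ha, mul_assoc]
  have hX : 2 ≤ 2 ^ a := by
    calc 2 = 2 ^ 1 := by norm_num
      _ ≤ 2 ^ a := Nat.pow_le_pow_right (by norm_num) ha1
  have e : ∀ m : ℕ, 2 ^ (m * a) = (2 ^ a) ^ m := fun m => by rw [← pow_mul, mul_comm]
  rw [e] at hw0 hw1
  have hτ : τ2 ≤ 2 ^ (12 * a) := by
    rw [e]
    generalize 2 ^ a = X at *
    have b1 : 1 + 2 * X ≤ X ^ 3 := by nlinarith [Nat.mul_le_mul hX hX]
    have b2 : τ1 ≤ X ^ 6 := by
      have := Nat.mul_le_mul hw0 b1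
      rw [← pow_add, show 3 + 3 = 6 from rfl] at this
      omega
    have b3 : 1 + 2 * τ1 ≤ X ^ 8 := by
      have h1 : 1 ≤ X ^ 6 := Nat.one_le_pow _ _ (by omega)
      have h2 : 4 ≤ X ^ 2 := by nlinarith
      have h3 := Nat.mul_le_mul_left (X ^ 6) h2
      rw [← pow_add, show 6 + 2 = 8 from rfl] at h3
      omega
    have := Nat.mul_le_mul hw1 b3
    rw [← pow_add, show 4 + 8 = 12 from rfl] at this
    omega
  have hN : 2 ^ (a * k * k) = ((2 ^ a) ^ k) ^ k := by rw [pow_mul, pow_mul]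
  refine ⟨fun x y => c2 (Fin.cast hN x) (Fin.cast hN y), fun b => ?_⟩
  exact ((hc2 b).comap (Fin.cast hN) (fun x y h => h)).mono (fun _ _ h => h) hτ

/-- the matching joining position `j` of block `i` to position `i` of block `j` -/
def gridM (t : ℕ) : SimpleGraph (Fin (t * t)) where
  Adj x y := x ≠ y ∧ finProdFinEquiv.symm y = (finProdFinEquiv.symm x).swap
  symm := ⟨fun x y h => ⟨h.1.symm, by rw [h.2, Prod.swap_swap]⟩⟩
  loopless := ⟨fun x h => h.1 rfl⟩

lemma gridM_matching (t : ℕ) (v w w' : Fin (t * t)) (h : (gridM t).Adj v w)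
    (h' : (gridM t).Adj v w') : w = w' :=
  finProdFinEquiv.symm.injective (h.2.trans h'.2.symm)

lemma pos_lt {t : ℕ} {i i' j j' : Fin t} (h : i < i') :
    finProdFinEquiv (i, j) < finProdFinEquiv (i', j') := by
  rw [Fin.lt_def, finProdFinEquiv_apply_val, finProdFinEquiv_apply_val]
  have h1 : (i : ℕ) + 1 ≤ i' := h
  have h2 := Nat.mul_le_mul_left t h1
  have h3 := j.2
  simp only
  nlinarith

/-- a copy of the grid matching is a complete interval minor -/
lemma le_of_copy {V : Type} [LinearOrder V] {R : V → V → Prop} {τ t : ℕ} (h : IMle R τ)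
    (f : Fin (t * t) → V) (hf : StrictMono f)
    (he : ∀ a b, a < b → (gridM t).Adj a b → R (f a) (f b)) : t ≤ τ := by
  rcases Nat.eq_zero_or_pos t with ht | ht
  · omega
  let u : ℕ → Fin t := fun i => if hi : i < t then ⟨i, hi⟩ else ⟨0, ht⟩
  have hu : ∀ i ∈ Finset.range t, ∀ i' ∈ Finset.range t, i < i' → u i < u i' := by
    intro i hi i' hi' hii
    rw [Finset.mem_range] at hi hi'
    simp only [u, dif_pos hi, dif_pos hi']
    exact hii
  have h1 := h (Finset.range t) (fun i j => f (finProdFinEquiv (u i, u j)))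
    (fun i hi i' hi' hii j _ j' _ => hf (pos_lt (hu i hi i' hi' hii)))
    (fun i hi j hj hij => he _ _ (pos_lt (hu i hi j hj hij))
      ⟨(pos_lt (hu i hi j hj hij)).ne, by simp⟩)
  simpa using h1

theorem main (c : ℝ) : ∃ (n : ℕ) (M : SimpleGraph (Fin n)),
    (∀ v w w' : Fin n, M.Adj v w → M.Adj v w' → w = w') ∧
    ∀ N : ℕ, (N : ℝ) ≤ (n : ℝ) ^ (c * Real.log n) →
      ∃ col : Fin N → Fin N → Fin 4, ∀ f : Fin n → Fin N, StrictMono f →
        ∀ i : Fin 4, ¬ ∀ a b : Fin n, a < b → M.Adj a b → col (f a) (f b) = i := by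
  obtain ⟨p, hp1, hp2⟩ : ∃ p : ℕ, 1 ≤ p ∧ 2 * (676 * c) ≤ (p : ℝ) := by
    obtain ⟨m, hm⟩ := exists_nat_ge (2 * (676 * c))
    exact ⟨m + 1, by omega, by push_cast; linarith⟩
  have hp1' : 1 ≤ 2 * p := by omega
  obtain ⟨k, hk⟩ : ∃ k, k = 2 ^ (2 * p) := ⟨_, rfl⟩
  obtain ⟨a, ha⟩ : ∃ a, a = 2 * p * k := ⟨_, rfl⟩
  obtain ⟨col, hcol⟩ : ∃ col : Fin (2 ^ (a * k * k)) → Fin (2 ^ (a * k * k)) → Bool × Bool,
      ∀ b, IMle (fun x y => col x y = b) (2 ^ (12 * a)) := by
    subst ha
    subst hk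
    exact construction (2 * p) hp1'
  have hpk : p * p * 2 ≤ k * 2 := by
    have h1 : p < 2 ^ p := Nat.lt_two_pow_self
    have h2 : k = 2 ^ p * 2 ^ p := by rw [hk, ← pow_add, two_mul]
    have h3 := Nat.mul_le_mul h1.le h1.le
    omega
  have hk1 : 1 ≤ k := by rw [hk]; exact Nat.one_le_two_pow
  have ha1 : 1 ≤ a := by rw [ha]; exact Nat.mul_pos hp1' hk1
  refine ⟨2 ^ (13 * a) * 2 ^ (13 * a), gridM _, gridM_matching _, fun N hN => ?_⟩
  have hN2 : N ≤ 2 ^ (a * k * k) := by
    have h1 : ((2 ^ (13 * a) * 2 ^ (13 * a) : ℕ) : ℝ) = (2 : ℝ) ^ (26 * a) := by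
      push_cast
      rw [← pow_add]
      congr 1
      ring
    have hl0 : 0 < Real.log 2 := Real.log_pos (by norm_num)
    have hl1 : Real.log 2 < 1 := by
      have := Real.log_two_lt_d9
      linarith
    have h2 : ((2 : ℝ) ^ (26 * a)) ^ (c * Real.log ((2 : ℝ) ^ (26 * a))) ≤
        (2 : ℝ) ^ (a * k * k) := by
      rw [Real.rpow_def_of_pos (by positivity), Real.log_pow,
        ← Real.exp_log (show (0 : ℝ) < 2 ^ (a * k * k) by positivity), Real.log_pow]
      apply Real.exp_le_exp.mpr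
      push_cast
      have ha' : (a : ℝ) = 2 * p * k := by rw [ha]; push_cast; ring
      have hpk' : (p : ℝ) * p ≤ k := by exact_mod_cast (by omega : p * p ≤ k)
      have hk0 : (0 : ℝ) < k := by exact_mod_cast hk1
      have hp0 : (0 : ℝ) < p := by exact_mod_cast hp1
      have ha0 : (0 : ℝ) < a := by exact_mod_cast ha1
      have h3 : 676 * c * Real.log 2 ≤ p * (1 / 2) := by
        have h5 : 2 * (676 * c) * Real.log 2 ≤ p * Real.log 2 :=
          mul_le_mul_of_nonneg_right hp2 hl0.le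
        nlinarith
      have h6 : 676 * c * Real.log 2 * a ≤ k * k := by
        calc 676 * c * Real.log 2 * a ≤ p * (1 / 2) * a :=
              mul_le_mul_of_nonneg_right h3 ha0.le
          _ = (p * p) * k := by rw [ha']; ring
          _ ≤ k * k := mul_le_mul_of_nonneg_right hpk' hk0.le
      calc 26 * (a : ℝ) * Real.log 2 * (c * (26 * (a : ℝ) * Real.log 2))
          = (676 * c * Real.log 2 * a) * (a * Real.log 2) := by ring
        _ ≤ (k * k) * (a * Real.log 2) := mul_le_mul_of_nonneg_right h6 (by positivity)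
        _ = a * k * k * Real.log 2 := by ring
    rw [h1] at hN
    exact_mod_cast hN.trans h2
  let e : Bool × Bool ≃ Fin 4 := Fintype.equivFinOfCardEq (by simp)
  refine ⟨fun x y => e (col (Fin.castLE hN2 x) (Fin.castLE hN2 y)), fun f hf i hi => ?_⟩
  have h1 := le_of_copy (hcol (e.symm i)) (fun x => Fin.castLE hN2 (f x))
    (fun x y h => hf h) (fun x y hxy hadj => by
      rw [← hi x y hxy hadj, Equiv.symm_apply_apply])
  have h2 : 2 ^ (12 * a) < 2 ^ (13 * a) := Nat.pow_lt_pow_right (by norm_num) (by omega)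
  omega

end Pool.Agent.H48Z.OrdRam
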