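import Mathlib

/-! Rank-Ramsey graphs, part a: factorisations and the sampling lemma. -/

set_option autoImplicit false

namespace Pool.Agent.H48Z.RR

open Finset

/-- the kernel `M` is a sum of at most `r` products `u x * w y` -/
def HasFact {V : Type} (M : V → V → ℝ) (r : ℕ) : Prop :=
  ∃ (κ : Type) (_ : Fintype κ) (u w : V → κ → ℝ),
    Fintype.card κ ≤ r ∧ ∀ x y, M x y = ∑ k, u x k * w y k

theorem HasFact.mono {V : Type} {M : V → V → ℝ} {r r' : ℕ} (h : HasFact M r) (hr : r ≤ r') :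
    HasFact M r' := by
  obtain ⟨κ, i, u, w, h1, h2⟩ := h
  exact ⟨κ, i, u, w, h1.trans hr, h2⟩

theorem hasFact_of_proj {V P : Type} [Fintype P] (π : V → P) (g : P → V → ℝ) :
    HasFact (fun x y => g (π x) y) (Fintype.card P) := by
  classical
  refine ⟨P, inferInstance, fun x p => if π x = p then 1 else 0, fun y p => g p y, le_rfl, ?_⟩
  intro x y
  simp

theorem hasFact_sum {V ι : Type} [Fintype ι] (M : ι → V → V → ℝ) (r : ℕ)
    (h : ∀ i, HasFact (M i) r) :
    HasFact (fun x y => ∑ i, M i x y) (Fintype.card ι * r) := by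
  classical
  choose κ inst u w h1 h2 using h
  refine ⟨Σ i, κ i, inferInstance, fun x k => u k.1 x k.2, fun y k => w k.1 y k.2, ?_, ?_⟩
  · rw [Fintype.card_sigma]
    calc ∑ i, Fintype.card (κ i) ≤ ∑ _i : ι, r := Finset.sum_le_sum fun i _ => h1 i
      _ = Fintype.card ι * r := by simp
  · intro x y
    rw [Fintype.sum_sigma]
    exact Finset.sum_congr rfl fun i _ => h2 i x y

theorem rank_le_of_fact {V : Type} {M : V → V → ℝ} {r : ℕ} (h : HasFact M r) (t m : ℕ)
    (σ : Fin m → Fin t → V) (X : Matrix (Fin m) (Fin m) ℝ)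
    (hX : ∀ i j, X i j = ∏ s, M (σ i s) (σ j s)) : X.rank ≤ r ^ t := by
  classical
  obtain ⟨κ, inst, u, w, h1, h2⟩ := h
  let U : Matrix (Fin m) (Fin t → κ) ℝ := fun i k => ∏ s, u (σ i s) (k s)
  let W : Matrix (Fin t → κ) (Fin m) ℝ := fun k j => ∏ s, w (σ j s) (k s)
  have : X = U * W := by
    ext i j
    rw [hX, Matrix.mul_apply]
    simp only [h2, U, W]
    rw [Finset.prod_univ_sum]
    simp only [Fintype.piFinset_univ, Finset.prod_mul_distrib]
  rw [this]
  calc (U * W).rank ≤ U.rank := Matrix.rank_mul_le_left _ _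
    _ ≤ Fintype.card (Fin t → κ) := Matrix.rank_le_card_width _
    _ = Fintype.card κ ^ t := by simp
    _ ≤ r ^ t := Nat.pow_le_pow_left h1 _

theorem avg3 {V : Type} [Fintype V] {N : ℕ} (i j k : Fin N) (hij : i ≠ j) (hjk : j ≠ k)
    (hik : i ≠ k) (F : V × V × V → ℕ) :
    (∑ ρ : Fin N → V, F (ρ i, ρ j, ρ k)) * Fintype.card V ^ 3
      = Fintype.card V ^ N * ∑ p, F p := by
  classical
  let φ : (Fin N → V) × (V × V × V) → (Fin N → V) × (V × V × V) := fun q =>
    (Function.update (Function.update (Function.update q.1 i q.2.1) j q.2.2.1) k q.2.2.2,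
      (q.1 i, q.1 j, q.1 k))
  have hφ : Function.Involutive φ := by
    rintro ⟨ρ, x, y, z⟩
    simp only [φ, Prod.mk.injEq]
    refine ⟨?_, ?_, ?_, ?_⟩
    · funext a
      by_cases h1 : a = k
      · subst h1; simp
      · by_cases h2 : a = j
        · subst h2; simp [h1]
        · by_cases h3 : a = i
          · subst h3; simp [h1, h2]
          · simp [h1, h2, h3]
    · simp [hij, hik]
    · simp [hjk]
    · simp
  have h := Equiv.sum_comp (hφ.toPerm φ) (fun q : (Fin N → V) × (V × V × V) => F q.2)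
  have h1 : ∑ q : (Fin N → V) × (V × V × V), F q.2 = Fintype.card V ^ N * ∑ p, F p := by
    rw [Fintype.sum_prod_type]
    simp
  have h2 : ∑ q : (Fin N → V) × (V × V × V), F ((hφ.toPerm φ) q).2
      = (∑ ρ : Fin N → V, F (ρ i, ρ j, ρ k)) * Fintype.card V ^ 3 := by
    rw [Fintype.sum_prod_type, Finset.sum_mul]
    refine Finset.sum_congr rfl fun ρ _ => ?_
    simp only [Function.Involutive.coe_toPerm, φ, Finset.sum_const, Finset.card_univ,
      Fintype.card_prod, smul_eq_mul]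
    ring
  rw [← h2, h, h1]

open Classical in
/-- number of (possibly degenerate) triangles of a relation -/
noncomputable def tri {V : Type} [Fintype V] (adj : V → V → Prop) : ℕ :=
  ∑ p : V × V × V, if adj p.1 p.2.1 ∧ adj p.2.1 p.2.2 ∧ adj p.1 p.2.2 then 1 else 0

open Classical in
theorem sample {V : Type} [Fintype V] [Nonempty V] (adj : V → V → Prop) (hr : ∀ x, adj x x)
    (hs : ∀ x y, adj x y → adj y x) (r B : ℕ)
    (hf : HasFact (fun x y => if adj x y then (1 : ℝ) else 0) r)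
    (hT : tri adj * B ≤ Fintype.card V ^ 3) (t m : ℕ) (hm : 0 < m) (h : 8 * m ^ 2 ≤ B ^ t) :
    ∃ G : SimpleGraph (Fin m), G.CliqueFree 3 ∧ (G.adjMatrix ℝ + 1).rank ≤ r ^ t := by
  set n := Fintype.card V with hn
  have hn0 : 0 < n := Fintype.card_pos
  let F : V × V × V → ℕ := fun p =>
    if adj p.1 p.2.1 ∧ adj p.2.1 p.2.2 ∧ adj p.1 p.2.2 then 1 else 0
  let D : Finset (Fin (2 * m) × Fin (2 * m) × Fin (2 * m)) :=
    univ.filter fun q => q.1 ≠ q.2.1 ∧ q.2.1 ≠ q.2.2 ∧ q.1 ≠ q.2.2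
  let bad : (Fin t → Fin (2 * m) → V) → Finset (Fin (2 * m) × Fin (2 * m) × Fin (2 * m)) :=
    fun ρ => D.filter fun q => ∀ s, F (ρ s q.1, ρ s q.2.1, ρ s q.2.2) = 1
  have hcard : ∀ ρ, (bad ρ).card = ∑ q ∈ D, ∏ s, F (ρ s q.1, ρ s q.2.1, ρ s q.2.2) := by
    intro ρ
    rw [Finset.card_filter]
    refine Finset.sum_congr rfl fun q _ => ?_
    split_ifs with hq
    · simp [hq]
    · push Not at hq
      obtain ⟨s, hs⟩ := hq
      refine (Finset.prod_eq_zero (Finset.mem_univ s) ?_).symm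
      simp only [F] at hs ⊢
      split_ifs at hs ⊢ with h1
      · exact absurd rfl hs
      · rfl
  have hsum : (∑ ρ, (bad ρ).card) * B ^ t ≤ (2 * m) ^ 3 * (n ^ (2 * m)) ^ t := by
    simp only [hcard]
    rw [Finset.sum_comm, Finset.sum_mul]
    calc ∑ q ∈ D, (∑ ρ : Fin t → Fin (2 * m) → V, ∏ s, F (ρ s q.1, ρ s q.2.1, ρ s q.2.2)) * B ^ t
        ≤ ∑ _q ∈ D, (n ^ (2 * m)) ^ t := by
          refine Finset.sum_le_sum fun q hq => ?_
          have hq' := (Finset.mem_filter.1 hq).2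
          rw [← Fintype.sum_pow (fun ρ : Fin (2 * m) → V => F (ρ q.1, ρ q.2.1, ρ q.2.2)),
            ← mul_pow]
          refine Nat.pow_le_pow_left ?_ _
          have h1 := avg3 q.1 q.2.1 q.2.2 hq'.1 hq'.2.1 hq'.2.2 F
          have h2 : ∑ p, F p = tri adj := rfl
          rw [h2, ← hn] at h1
          refine Nat.le_of_mul_le_mul_right (c := n ^ 3) ?_ (by positivity)
          calc (∑ ρ : Fin (2 * m) → V, F (ρ q.1, ρ q.2.1, ρ q.2.2)) * B * n ^ 3
              = (∑ ρ : Fin (2 * m) → V, F (ρ q.1, ρ q.2.1, ρ q.2.2)) * n ^ 3 * B := by ring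
            _ = n ^ (2 * m) * (tri adj * B) := by rw [h1]; ring
            _ ≤ n ^ (2 * m) * n ^ 3 := Nat.mul_le_mul_left _ hT
      _ = D.card * (n ^ (2 * m)) ^ t := by simp
      _ ≤ (2 * m) ^ 3 * (n ^ (2 * m)) ^ t := by
          refine Nat.mul_le_mul_right _ ?_
          calc D.card ≤ Fintype.card (Fin (2 * m) × Fin (2 * m) × Fin (2 * m)) :=
                Finset.card_le_univ _
            _ = (2 * m) ^ 3 := by simp; ring
  have hex : ∃ ρ, (bad ρ).card ≤ m := by
    by_contra hc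
    push Not at hc
    have h1 : ∑ _ρ : Fin t → Fin (2 * m) → V, (m + 1) ≤ ∑ ρ, (bad ρ).card :=
      Finset.sum_le_sum fun ρ _ => hc ρ
    have h2 : ∑ _ρ : Fin t → Fin (2 * m) → V, (m + 1) = (n ^ (2 * m)) ^ t * (m + 1) := by
      simp [hn]
    rw [h2] at h1
    have hX : 0 < (n ^ (2 * m)) ^ t := by positivity
    generalize (n ^ (2 * m)) ^ t = X at *
    have h3 : X * (m + 1) * (8 * m ^ 2) ≤ (2 * m) ^ 3 * X :=
      le_trans (Nat.mul_le_mul h1 h) hsum
    have h4 : 0 < X * (8 * m ^ 2) := by positivity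
    nlinarith
  obtain ⟨ρ, hρ⟩ := hex
  let C : Finset (Fin (2 * m)) := ((bad ρ).image Prod.fst)ᶜ
  have hC : m ≤ C.card := by
    have h1 : ((bad ρ).image Prod.fst).card ≤ m := Finset.card_image_le.trans hρ
    have h2 : C.card = 2 * m - ((bad ρ).image Prod.fst).card := by
      simp [C, Finset.card_compl]
    omega
  let e := C.orderEmbOfCardLe hC
  have he : ∀ i, e i ∈ C := fun i => C.orderEmbOfCardLe_mem hC i
  let G : SimpleGraph (Fin m) :=
    { Adj := fun i j => i ≠ j ∧ ∀ s, adj (ρ s (e i)) (ρ s (e j))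
      symm := ⟨fun i j hij => ⟨hij.1.symm, fun s => hs _ _ (hij.2 s)⟩⟩
      loopless := ⟨fun i hi => hi.1 rfl⟩ }
  refine ⟨G, ?_, ?_⟩
  · intro S hS
    obtain ⟨a, b, c, hab, hac, hbc, -⟩ := SimpleGraph.is3Clique_iff.1 hS
    have h1 : (e a, e b, e c) ∈ bad ρ := by
      refine Finset.mem_filter.2 ⟨Finset.mem_filter.2 ⟨Finset.mem_univ _, ?_, ?_, ?_⟩, ?_⟩
      · exact fun h => hab.1 (e.injective h)
      · exact fun h => hbc.1 (e.injective h)
      · exact fun h => hac.1 (e.injective h)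
      · intro s
        simp only [F]
        rw [if_pos ⟨hab.2 s, hbc.2 s, hac.2 s⟩]
    have h2 := he a
    simp only [C, Finset.mem_compl] at h2
    exact h2 (Finset.mem_image.2 ⟨_, h1, rfl⟩)
  · refine rank_le_of_fact hf t m (fun i s => ρ s (e i)) _ ?_
    intro i j
    rw [Matrix.add_apply, SimpleGraph.adjMatrix_apply, Finset.prod_ite_zero]
    by_cases hij : i = j
    · subst hij
      simp [hr]
    · rw [Matrix.one_apply_ne hij]
      have : G.Adj i j ↔ ∀ s ∈ (univ : Finset (Fin t)), adj (ρ s (e i)) (ρ s (e j)) := by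
        simp [G, hij]
      by_cases h1 : G.Adj i j
      · rw [if_pos h1, if_pos (this.1 h1)]; simp
      · rw [if_neg h1, if_neg (fun h2 => h1 (this.2 h2))]; simp

end Pool.Agent.H48Z.RR
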