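import Mathlib
import Pool.Agent.H48Z.RRa

/-! Rank-Ramsey graphs, part b: a signed sum of subcubes with sum-free support. -/

set_option autoImplicit false

namespace Pool.Agent.H48Z.RR

open Finset

abbrev Lab (l : ℕ) := Option (Fin l × Option (Fin l))
abbrev Vx (l : ℕ) := Fin l → Lab l → Bool

variable {l : ℕ}

/-- label of the free coordinate at position `s` -/
def lam : Lab l → Fin l → Lab l
  | none, _ => none
  | some (j, none), s => if s ≤ j then some (j, none) else none
  | some (j, some i), s =>
      if s ≤ i then some (j, some i) else if s ≤ j then some (j, none) else none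

/-- prescribed value at a coordinate which is not free -/
def val : Lab l → Fin l → Lab l → Prop
  | none, _, _ => False
  | some (j, none), s, a => s = j ∧ a = none
  | some (j, some i), s, a => (s = j ∧ a = none) ∨ (s = i ∧ a = some (j, none))

def cube (τ : Lab l) (d : Vx l) : Prop := ∀ s a, a ≠ lam τ s → (d s a = true ↔ val τ s a)

def lead (g : Fin l → Bool) (j : Fin l) : Prop := g j = true ∧ ∀ s, s < j → g s = false

open Classical in
theorem lead_sum (g : Fin l → Bool) :
    (1 : ℝ) = (if ∀ s, g s = false then 1 else 0) + ∑ j, if lead g j then 1 else 0 := by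
  by_cases h : ∀ s, g s = false
  · rw [if_pos h, Finset.sum_eq_zero]
    · simp
    · intro j _
      rw [if_neg]
      rintro ⟨h1, -⟩
      simp [h j] at h1
  · rw [if_neg h]
    have hne : (univ.filter fun s => g s = true).Nonempty := by
      push Not at h
      obtain ⟨s, hs⟩ := h
      exact ⟨s, by simpa using hs⟩
    set j0 := (univ.filter fun s => g s = true).min' hne with hj0
    have h1 : g j0 = true := (Finset.mem_filter.1 (Finset.min'_mem _ hne)).2
    have h2 : ∀ s, s < j0 → g s = false := by
      intro s hs
      by_contra hc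
      have : j0 ≤ s := Finset.min'_le _ _ (by simpa using hc)
      omega
    rw [Finset.sum_eq_single j0, if_pos ⟨h1, h2⟩]
    · simp
    · intro j _ hj
      rw [if_neg]
      rintro ⟨h3, h4⟩
      rcases lt_or_gt_of_ne hj with h5 | h5
      · simp [h2 j h5] at h3
      · simp [h4 j0 h5] at h1
    · simp

theorem cube_none (d : Vx l) : cube none d ↔ ∀ s q, d s (some q) = false := by
  constructor
  · intro h s q
    have := h s (some q) (by simp [lam])
    simpa [val] using this
  · intro h s a ha
    cases a with
    | none => simp [lam] at ha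
    | some q => simp [val, h]

theorem cube_one (d : Vx l) (j : Fin l) : cube (some (j, none)) d ↔
    lead (fun s => d s none) j ∧ (∀ s, j < s → d s (some (j, none)) = false) ∧
      ∀ s q, q ≠ (j, none) → d s (some q) = false := by
  constructor
  · intro h
    refine ⟨⟨?_, ?_⟩, ?_, ?_⟩
    · exact (h j none (by simp [lam])).2 (by simp [val])
    · intro s hs
      have := h s none (by simp [lam, hs.le])
      simpa [val, hs.ne] using this
    · intro s hs
      have := h s (some (j, none)) (by simp [lam, not_le.2 hs])
      simpa [val] using this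
    · intro s q hq
      have := h s (some q) (by simp only [lam]; split_ifs <;> simp [hq])
      simpa [val] using this
  · rintro ⟨⟨h1, h2⟩, h3, h4⟩ s a ha
    simp only [lam] at ha
    cases a with
    | none =>
      split_ifs at ha with h5
      · rcases eq_or_lt_of_le h5 with h6 | h6
        · subst h6; simpa [val] using h1
        · have := h2 s h6
          simp only at this
          simp [val, this, h6.ne]
      · exact absurd rfl ha
    | some q =>
      by_cases hq : q = (j, none)
      · subst hq
        split_ifs at ha with h5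
        · exact absurd rfl ha
        · simp [val, h3 s (not_le.1 h5)]
      · simp [val, h4 s q hq]

theorem cube_two (d : Vx l) (j i : Fin l) (hij : i ≤ j) : cube (some (j, some i)) d ↔
    lead (fun s => d s none) j ∧ lead (fun s => d s (some (j, none))) i ∧
      (∀ s, j < s → d s (some (j, none)) = false) ∧
      (∀ s, i < s → d s (some (j, some i)) = false) ∧
      ∀ s q, q ≠ (j, none) → q ≠ (j, some i) → d s (some q) = false := by
  constructor
  · intro h
    refine ⟨⟨?_, ?_⟩, ⟨?_, ?_⟩, ?_, ?_, ?_⟩
    · exact (h j none (by simp only [lam]; split_ifs <;> simp_all)).2 (by simp [val])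
    · intro s hs
      have := h s none (by simp only [lam, hs.le]; split_ifs <;> simp_all)
      simpa [val, hs.ne] using this
    · exact (h i (some (j, none)) (by simp [lam])).2 (by simp [val])
    · intro s hs
      have := h s (some (j, none)) (by simp [lam, hs.le])
      simpa [val, hs.ne] using this
    · intro s hs
      have h1 : ¬ s ≤ i := by omega
      have h2 : s ≠ i := by omega
      have := h s (some (j, none)) (by simp [lam, not_le.2 hs, h1])
      simpa [val, h2] using this
    · intro s hs
      have := h s (some (j, some i)) (by simp only [lam, not_le.2 hs]; split_ifs <;> simp_all)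
      simpa [val] using this
    · intro s q hq hq'
      have := h s (some q) (by simp only [lam]; split_ifs <;> simp [hq, hq'])
      simpa [val, hq] using this
  · rintro ⟨⟨h1, h2⟩, ⟨h3, h4⟩, h5, h6, h7⟩ s a ha
    simp only [lam] at ha
    simp only at h1 h2 h3 h4
    cases a with
    | none =>
      have hs : s ≤ j := by
        by_contra hc
        have : ¬ s ≤ i := by omega
        simp [hc, this] at ha
      rcases eq_or_lt_of_le hs with h8 | h8
      · subst h8; simp [val, h1]
      · simp [val, h2 s h8, h8.ne]
    | some q =>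
      by_cases hq : q = (j, none)
      · subst hq
        by_cases h8 : s ≤ i
        · rcases eq_or_lt_of_le h8 with h9 | h9
          · subst h9; simp [val, h3]
          · simp [val, h4 s h9, h9.ne]
        · have h9 : ¬ s ≤ j := by
            intro hc
            simp [h8, hc] at ha
          have h10 : s ≠ i := by omega
          simp [val, h5 s (not_le.1 h9), h10]
      · by_cases hq' : q = (j, some i)
        · subst hq'
          have h8 : ¬ s ≤ i := by
            intro hc
            simp [hc] at ha
          simp [val, h6 s (not_le.1 h8)]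
        · simp [val, h7 s q hq hq', hq]

/-- the final pieces -/
def piece (j i : Fin l) (d : Vx l) : Prop :=
  i ≤ j ∧ cube (some (j, some i)) d ∧ ∃ s, d s (some (j, some i)) = true

def good (d : Vx l) : Prop := (∀ s a, d s a = false) ∨ ∃ j i, piece j i d

theorem piece_eq {j i j' i' : Fin l} {d : Vx l} {s : Fin l} (h : piece j i d)
    (hs : d s (some (j', some i')) = true) : j' = j ∧ i' = i := by
  obtain ⟨hij, hc, -⟩ := h
  obtain ⟨-, -, -, -, h7⟩ := (cube_two d j i hij).1 hc
  by_contra hne
  have := h7 s (j', some i') (by simp) (by simpa using fun h1 h2 => hne ⟨h1, h2⟩)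
  simp [this] at hs

theorem sumfree {j1 i1 j2 i2 j3 i3 : Fin l} {d1 d2 d3 : Vx l} (h1 : piece j1 i1 d1)
    (h2 : piece j2 i2 d2) (h3 : piece j3 i3 d3) (h : ∀ s a, d3 s a = xor (d1 s a) (d2 s a)) :
    False := by
  have key : j1 = j2 ∧ j1 = j3 := by
    obtain ⟨s1, hs1⟩ := h1.2.2
    obtain ⟨s2, hs2⟩ := h2.2.2
    obtain ⟨s3, hs3⟩ := h3.2.2
    have a1 : j1 = j2 ∨ j1 = j3 := by
      by_cases hc : d2 s1 (some (j1, some i1)) = true
      · exact Or.inl (piece_eq h2 hc).1
      · refine Or.inr (piece_eq (s := s1) (i' := i1) h3 ?_).1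
        rw [h, hs1]; simpa using hc
    have a2 : j2 = j1 ∨ j2 = j3 := by
      by_cases hc : d1 s2 (some (j2, some i2)) = true
      · exact Or.inl (piece_eq h1 hc).1
      · refine Or.inr (piece_eq (s := s2) (i' := i2) h3 ?_).1
        rw [h, hs2]; simpa using hc
    have a3 : j3 = j1 ∨ j3 = j2 := by
      by_cases hc : d1 s3 (some (j3, some i3)) = true
      · exact Or.inl (piece_eq h1 hc).1
      · refine Or.inr (piece_eq (s := s3) (i' := i3) h2 ?_).1
        rw [h] at hs3
        simpa [hc] using hs3
    omega
  obtain ⟨rfl, rfl⟩ := key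
  have e1 := ((cube_two d1 _ _ h1.1).1 h1.2.1).1.1
  have e2 := ((cube_two d2 _ _ h2.1).1 h2.2.1).1.1
  have e3 := ((cube_two d3 _ _ h3.1).1 h3.2.1).1.1
  simp only at e1 e2 e3
  rw [h, e1, e2] at e3
  simp at e3

open Classical in
noncomputable def sgn : Lab l → ℝ
  | none => 1
  | some (_, none) => -1
  | some (j, some i) => if i ≤ j then 1 else 0

open Classical in
theorem good_eq (d : Vx l) :
    (if good d then (1 : ℝ) else 0) = ∑ τ : Lab l, sgn τ * if cube τ d then 1 else 0 := by
  -- the auxiliary pieces
  let P : Fin l → Prop := fun j => cube (some (j, none)) d ∧ ∀ s, d s (some (j, none)) = false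
  let Q : Fin l → Fin l → Prop := fun j i =>
    i ≤ j ∧ cube (some (j, some i)) d ∧ ∀ s, d s (some (j, some i)) = false
  have I1 : (if cube none d then (1 : ℝ) else 0)
      = (if ∀ s a, d s a = false then 1 else 0) + ∑ j, if P j then 1 else 0 := by
    by_cases hc : cube none d
    · rw [if_pos hc]
      refine (lead_sum (fun s => d s none)).trans ?_
      rw [cube_none] at hc
      congr 1
      · refine if_congr ⟨fun h s a => ?_, fun h s => h s none⟩ rfl rfl
        cases a with
        | none => exact h s
        | some q => exact hc s q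
      · refine Finset.sum_congr rfl fun j _ => if_congr ?_ rfl rfl
        simp only [P, cube_one]
        exact ⟨fun h => ⟨⟨h, fun s _ => hc s _, fun s q _ => hc s q⟩, fun s => hc s _⟩,
          fun h => h.1.1⟩
    · rw [if_neg hc, if_neg, Finset.sum_eq_zero]
      · simp
      · intro j _
        rw [if_neg]
        rintro ⟨h1, h2⟩
        apply hc
        rw [cube_none]
        intro s q
        by_cases hq : q = (j, none)
        · subst hq; exact h2 s
        · exact ((cube_one d j).1 h1).2.2 s q hq
      · intro h
        exact hc ((cube_none d).2 fun s q => h s _)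
  have I2 : ∀ j, (if cube (some (j, none)) d then (1 : ℝ) else 0)
      = (if P j then 1 else 0) + ∑ i, if Q j i then 1 else 0 := by
    intro j
    by_cases hc : cube (some (j, none)) d
    · rw [if_pos hc]
      refine (lead_sum (fun s => d s (some (j, none)))).trans ?_
      congr 1
      · exact if_congr ⟨fun h => ⟨hc, h⟩, fun h => h.2⟩ rfl rfl
      · refine Finset.sum_congr rfl fun i _ => if_congr ?_ rfl rfl
        obtain ⟨h1, h2, h3⟩ := (cube_one d j).1 hc
        constructor
        · intro h
          have hij : i ≤ j := by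
            by_contra hn
            have h4 := h.1
            simp only at h4
            simp [h2 i (not_le.1 hn)] at h4
          exact ⟨hij, (cube_two d j i hij).2 ⟨h1, h, h2, fun s _ => h3 s _ (by simp),
            fun s q hq _ => h3 s q hq⟩, fun s => h3 s _ (by simp)⟩
        · rintro ⟨hij, h, -⟩
          exact ((cube_two d j i hij).1 h).2.1
    · rw [if_neg hc, if_neg (fun h : P j => hc h.1), Finset.sum_eq_zero]
      · simp
      · intro i _
        rw [if_neg]
        rintro ⟨hij, h1, h2⟩
        apply hc
        obtain ⟨h3, -, h4, -, h5⟩ := (cube_two d j i hij).1 h1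
        refine (cube_one d j).2 ⟨h3, h4, fun s q hq => ?_⟩
        by_cases hq' : q = (j, some i)
        · subst hq'; exact h2 s
        · exact h5 s q hq hq'
  have I3 : ∀ j i, sgn (some (j, some i)) * (if cube (some (j, some i)) d then (1 : ℝ) else 0)
      = (if Q j i then 1 else 0) + if piece j i d then 1 else 0 := by
    intro j i
    simp only [sgn, Q, piece]
    by_cases h1 : i ≤ j <;> by_cases h2 : cube (some (j, some i)) d <;>
      by_cases h3 : ∃ s, d s (some (j, some i)) = true <;> simp_all
  have I4 : (if good d then (1 : ℝ) else 0)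
      = (if ∀ s a, d s a = false then 1 else 0) + ∑ j, ∑ i, if piece j i d then 1 else 0 := by
    by_cases h0 : ∀ s a, d s a = false
    · rw [if_pos (show good d from Or.inl h0), if_pos h0, Finset.sum_eq_zero]
      · simp
      · intro j _
        refine Finset.sum_eq_zero fun i _ => if_neg ?_
        rintro ⟨-, -, s, hs⟩
        simp [h0] at hs
    · rw [if_neg h0]
      by_cases h1 : ∃ j i, piece j i d
      · rw [if_pos (show good d from Or.inr h1)]
        obtain ⟨j, i, h⟩ := h1
        obtain ⟨s, hs⟩ := h.2.2
        rw [Finset.sum_eq_single j, Finset.sum_eq_single i, if_pos h]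
        · simp
        · intro i' _ hi'
          exact if_neg fun h' => hi' (piece_eq h' hs).2.symm
        · simp
        · intro j' _ hj'
          exact Finset.sum_eq_zero fun i' _ => if_neg fun h' => hj' (piece_eq h' hs).1.symm
        · simp
      · rw [if_neg (fun h : good d => h.elim h0 h1), Finset.sum_eq_zero]
        · simp
        · intro j _
          exact Finset.sum_eq_zero fun i _ => if_neg fun h => h1 ⟨j, i, h⟩
  rw [Fintype.sum_option, Fintype.sum_prod_type]
  simp only [Fintype.sum_option, I3]
  simp only [sgn, I2, I1, I4, Finset.sum_add_distrib, one_mul, neg_mul, Finset.sum_neg_distrib]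
  ring

def dif (x y : Vx l) : Vx l := fun s a => xor (x s a) (y s a)

def adj (x y : Vx l) : Prop := good (dif x y)

theorem adj_refl (x : Vx l) : adj x x := Or.inl fun s a => by simp [dif]

theorem adj_symm (x y : Vx l) (h : adj x y) : adj y x := by
  have : dif y x = dif x y := by
    funext s a
    simp [dif, Bool.xor_comm]
  rw [adj, this]
  exact h

theorem eq_of_dif {x y : Vx l} (h : ∀ s a, dif x y s a = false) : x = y := by
  funext s a
  have := h s a
  simp only [dif] at this
  revert this
  cases x s a <;> cases y s a <;> simp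

theorem tri_deg {x y z : Vx l} (h1 : adj x y) (h2 : adj y z) (h3 : adj x z) :
    x = y ∨ y = z ∨ x = z := by
  rcases h1 with h1 | ⟨j1, i1, h1⟩
  · exact Or.inl (eq_of_dif h1)
  rcases h2 with h2 | ⟨j2, i2, h2⟩
  · exact Or.inr (Or.inl (eq_of_dif h2))
  rcases h3 with h3 | ⟨j3, i3, h3⟩
  · exact Or.inr (Or.inr (eq_of_dif h3))
  refine (sumfree h1 h2 h3 fun s a => ?_).elim
  simp only [dif]
  cases x s a <;> cases y s a <;> cases z s a <;> rfl

open Classical in
theorem card_cube (τ : Lab l) (x : Vx l) :
    (univ.filter fun y => cube τ (dif x y)).card ≤ 2 ^ l := by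
  have : (2 : ℕ) ^ l = (univ : Finset (Fin l → Bool)).card := by simp
  rw [this]
  refine Finset.card_le_card_of_injOn (fun y s => y s (lam τ s)) (fun _ _ => by simp) ?_
  intro y hy y' hy' h
  have hy1 : cube τ (dif x y) := by simpa using hy
  have hy2 : cube τ (dif x y') := by simpa using hy'
  funext s a
  by_cases ha : a = lam τ s
  · rw [ha]; exact congrFun h s
  · have := (hy1 s a ha).trans (hy2 s a ha).symm
    simp only [dif] at this
    revert this
    cases x s a <;> cases y s a <;> cases y' s a <;> simp

open Classical in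
theorem card_adj (x : Vx l) :
    (univ.filter fun y => adj x y).card ≤ Fintype.card (Lab l) * 2 ^ l := by
  calc (univ.filter fun y => adj x y).card
      ≤ (univ.biUnion fun τ : Lab l => univ.filter fun y => cube τ (dif x y)).card := by
        refine Finset.card_le_card fun y hy => ?_
        have hy1 : adj x y := by simpa using hy
        simp only [Finset.mem_biUnion, Finset.mem_univ, true_and, Finset.mem_filter]
        rcases hy1 with h | ⟨j, i, h⟩
        · exact ⟨none, (cube_none _).2 fun s q => h s _⟩
        · exact ⟨_, h.2.1⟩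
    _ ≤ ∑ τ : Lab l, (univ.filter fun y => cube τ (dif x y)).card := Finset.card_biUnion_le
    _ ≤ ∑ _τ : Lab l, 2 ^ l := Finset.sum_le_sum fun τ _ => card_cube τ x
    _ = Fintype.card (Lab l) * 2 ^ l := by simp

open Classical in
theorem tri_le : tri (adj (l := l)) ≤ 3 * (Fintype.card (Vx l) * (Fintype.card (Lab l) * 2 ^ l)) := by
  let E : Finset (Vx l × Vx l) := univ.filter fun p => adj p.1 p.2
  have hE : E.card ≤ Fintype.card (Vx l) * (Fintype.card (Lab l) * 2 ^ l) := by
    calc E.card = ∑ x, (univ.filter fun y => adj x y).card := by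
          simp only [E, Finset.card_filter]
          rw [Fintype.sum_prod_type]
      _ ≤ ∑ _x : Vx l, Fintype.card (Lab l) * 2 ^ l := Finset.sum_le_sum fun x _ => card_adj x
      _ = _ := by rw [Finset.sum_const, Finset.card_univ, smul_eq_mul]
  have h1 : tri (adj (l := l)) ≤ (E.image (fun p => (p.1, p.1, p.2)) ∪
      (E.image (fun p => (p.1, p.2, p.2)) ∪ E.image (fun p => (p.1, p.2, p.1)))).card := by
    rw [tri, ← Finset.card_filter]
    refine Finset.card_le_card ?_
    rintro ⟨x, y, z⟩ hp
    obtain ⟨h1, h2, h3⟩ := (Finset.mem_filter.1 hp).2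
    simp only [Finset.mem_union, Finset.mem_image, E, Finset.mem_filter, Finset.mem_univ,
      true_and]
    rcases tri_deg h1 h2 h3 with h | h | h
    · simp only at h; subst h; exact Or.inl ⟨(x, z), h3, rfl⟩
    · simp only at h; subst h; exact Or.inr (Or.inl ⟨(x, y), h1, rfl⟩)
    · simp only at h; subst h; exact Or.inr (Or.inr ⟨(x, y), h1, rfl⟩)
  have h2 := Finset.card_union_le (E.image (fun p => (p.1, p.1, p.2)))
    (E.image (fun p => (p.1, p.2, p.2)) ∪ E.image (fun p => (p.1, p.2, p.1)))
  have h3 := Finset.card_union_le (E.image (fun p => (p.1, p.2, p.2)))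
    (E.image (fun p => (p.1, p.2, p.1)))
  have h4 := Finset.card_image_le (s := E) (f := fun p => (p.1, p.1, p.2))
  have h5 := Finset.card_image_le (s := E) (f := fun p => (p.1, p.2, p.2))
  have h6 := Finset.card_image_le (s := E) (f := fun p => (p.1, p.2, p.1))
  omega

open Classical in
theorem fact_cube (τ : Lab l) (c : ℝ) (r : ℕ) (hr : Fintype.card (Vx l) ≤ r * 2 ^ l) :
    HasFact (fun x y : Vx l => c * if cube τ (dif x y) then (1 : ℝ) else 0) r := by
  let P := {x : Vx l // ∀ s, x s (lam τ s) = false}
  let π : Vx l → P := fun x => ⟨fun s a => if a = lam τ s then false else x s a, fun s => by simp⟩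
  have h1 := hasFact_of_proj π (fun p y => c * if cube τ (dif p.1 y) then (1 : ℝ) else 0)
  have h2 : (fun x y : Vx l => c * if cube τ (dif x y) then (1 : ℝ) else 0)
      = fun x y => c * if cube τ (dif (π x).1 y) then (1 : ℝ) else 0 := by
    funext x y
    congr 1
    refine if_congr ?_ rfl rfl
    refine forall_congr' fun s => forall_congr' fun a => forall_congr' fun ha => ?_
    simp [dif, π, ha]
  rw [h2]
  refine h1.mono ?_
  have h3 : Fintype.card (P × (Fin l → Bool)) ≤ Fintype.card (Vx l) := by
    refine Fintype.card_le_of_injective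
      (fun q s a => if a = lam τ s then q.2 s else q.1.1 s a) ?_
    rintro ⟨p, v⟩ ⟨p', v'⟩ h
    refine Prod.ext (Subtype.ext ?_) ?_
    · funext s a
      by_cases ha : a = lam τ s
      · rw [ha]
        exact (p.2 s).trans (p'.2 s).symm
      · simpa [ha] using congrFun (congrFun h s) a
    · funext s
      simpa using congrFun (congrFun h s) (lam τ s)
  rw [Fintype.card_prod, Fintype.card_fun, Fintype.card_bool, Fintype.card_fin] at h3
  exact Nat.le_of_mul_le_mul_right (h3.trans hr) (by positivity)

open Classical in
theorem fact_adj (r : ℕ) (hr : Fintype.card (Vx l) ≤ r * 2 ^ l) :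
    HasFact (fun x y : Vx l => if adj x y then (1 : ℝ) else 0) (Fintype.card (Lab l) * r) := by
  have h := hasFact_sum (fun (τ : Lab l) (x y : Vx l) =>
    sgn τ * if cube τ (dif x y) then (1 : ℝ) else 0) r fun τ => fact_cube τ _ r hr
  have h2 : (fun x y : Vx l => if adj x y then (1 : ℝ) else 0)
      = fun x y => ∑ τ : Lab l, sgn τ * if cube τ (dif x y) then (1 : ℝ) else 0 := by
    funext x y
    exact good_eq (dif x y)
  rw [h2]
  exact h

theorem card_lab : Fintype.card (Lab l) = l * (l + 1) + 1 := by simp

theorem card_vx : Fintype.card (Vx l) = 2 ^ ((l * (l + 1) + 1) * l) := by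
  rw [Fintype.card_fun, Fintype.card_fun, Fintype.card_bool, Fintype.card_fin, card_lab, pow_mul]

theorem core_aux (l A : ℕ) (hl : l = 40) (hA : (l * (l + 1) + 1) * l = A + 40) (t m : ℕ) (hm : 0 < m)
    (h : 8 * m ^ 2 ≤ (4 ^ (A + 13)) ^ t) :
    ∃ G : SimpleGraph (Fin m), G.CliqueFree 3 ∧
      (by classical exact (G.adjMatrix ℝ + 1).rank) ≤ (2 ^ (A + 11)) ^ t := by
  classical
  have hn : Fintype.card (Vx l) = 2 ^ A * 2 ^ 40 := by rw [card_vx, hA, pow_add]
  have hK : Fintype.card (Lab l) = 1641 := by rw [card_lab, hl]
  have hL : (2 : ℕ) ^ l = 2 ^ 40 := by rw [hl]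
  have hf := (fact_adj (l := l) (2 ^ A) (by rw [hn, hL])).mono
    (r' := 2 ^ (A + 11)) (by rw [hK, pow_add]; omega)
  have hT : tri (adj (l := l)) * 4 ^ (A + 13) ≤ Fintype.card (Vx l) ^ 3 := by
    have h1 := tri_le (l := l)
    have h2 : (4 : ℕ) ^ (A + 13) = (2 ^ A) ^ 2 * 2 ^ 26 := by
      rw [show (4 : ℕ) = 2 ^ 2 from rfl, ← pow_mul, ← pow_mul, ← pow_add]
      congr 1
      ring
    rw [hn, hK, hL] at h1
    rw [hn, h2]
    generalize 2 ^ A = X at *
    calc tri (adj (l := l)) * (X ^ 2 * 2 ^ 26)
        ≤ 3 * (X * 2 ^ 40 * (1641 * 2 ^ 40)) * (X ^ 2 * 2 ^ 26) := Nat.mul_le_mul_right _ h1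
      _ = X ^ 3 * (3 * 1641 * 2 ^ 106) := by ring
      _ ≤ X ^ 3 * 2 ^ 120 := Nat.mul_le_mul_left _ (by norm_num)
      _ = (X * 2 ^ 40) ^ 3 := by ring
  obtain ⟨G, h1, h2⟩ := sample (adj (l := l)) adj_refl adj_symm _ _ hf hT t m hm h
  exact ⟨G, h1, by convert h2⟩

theorem core : ∃ a : ℕ, ∀ t m : ℕ, 0 < m → 8 * m ^ 2 ≤ (4 ^ (a + 2)) ^ t →
    ∃ G : SimpleGraph (Fin m), G.CliqueFree 3 ∧
      (by classical exact (G.adjMatrix ℝ + 1).rank) ≤ (2 ^ a) ^ t := by
  obtain ⟨A, hA⟩ : ∃ A, (40 * (40 + 1) + 1) * 40 = A + 40 := ⟨65600, by norm_num⟩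
  exact ⟨A + 11, fun t m hm h => core_aux 40 A rfl hA t m hm h⟩

end Pool.Agent.H48Z.RR
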