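import Mathlib

/-! Explicit fields with 8 and 9 elements. -/

set_option autoImplicit false

namespace Pool.Agent.H48Z.SmallFields

/-- `a + b x + c x^2` over `ZMod 2` with `x^3 = x + 1` -/
structure F8 where
  a : ZMod 2
  b : ZMod 2
  c : ZMod 2
  deriving DecidableEq, Fintype

instance : Zero F8 := ⟨⟨0, 0, 0⟩⟩
instance : One F8 := ⟨⟨1, 0, 0⟩⟩
instance : Add F8 := ⟨fun u v => ⟨u.a + v.a, u.b + v.b, u.c + v.c⟩⟩
instance : Neg F8 := ⟨fun u => ⟨-u.a, -u.b, -u.c⟩⟩
instance : Mul F8 := ⟨fun u v =>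
  ⟨u.a * v.a + (u.b * v.c + u.c * v.b),
   u.a * v.b + u.b * v.a + (u.b * v.c + u.c * v.b) + u.c * v.c,
   u.a * v.c + u.b * v.b + u.c * v.a + u.c * v.c⟩⟩
instance : Inv F8 := ⟨fun u => u * u * u * u * u * u⟩

instance : Field F8 :=
  Field.ofMinimalAxioms F8 (by decide +kernel) (by decide +kernel) (by decide +kernel)
    (by decide +kernel) (by decide +kernel) (by decide +kernel) (by decide +kernel)
    (by decide +kernel) (by decide +kernel) ⟨0, 1, by decide +kernel⟩

/-- `a + b x` over `ZMod 3` with `x^2 = 1 - x` -/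
structure F9 where
  a : ZMod 3
  b : ZMod 3
  deriving DecidableEq, Fintype

instance : Zero F9 := ⟨⟨0, 0⟩⟩
instance : One F9 := ⟨⟨1, 0⟩⟩
instance : Add F9 := ⟨fun u v => ⟨u.a + v.a, u.b + v.b⟩⟩
instance : Neg F9 := ⟨fun u => ⟨-u.a, -u.b⟩⟩
instance : Mul F9 := ⟨fun u v =>
  ⟨u.a * v.a + u.b * v.b, u.a * v.b + u.b * v.a - u.b * v.b⟩⟩
instance : Inv F9 := ⟨fun u => u * u * u * u * u * u * u⟩

instance : Field F9 :=
  Field.ofMinimalAxioms F9 (by decide +kernel) (by decide +kernel) (by decide +kernel)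
    (by decide +kernel) (by decide +kernel) (by decide +kernel) (by decide +kernel)
    (by decide +kernel) (by decide +kernel) ⟨0, 1, by decide +kernel⟩

def x8 : F8 := ⟨0, 1, 0⟩
def x9 : F9 := ⟨0, 1⟩

theorem card8 : Fintype.card F8 = 8 := by decide +kernel
theorem card9 : Fintype.card F9 = 9 := by decide +kernel

theorem ord8 : orderOf x8 = 7 := by
  rw [orderOf_eq_iff (by norm_num)]
  decide +kernel

theorem ord9 : orderOf x9 = 8 := by
  rw [orderOf_eq_iff (by norm_num)]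
  decide +kernel

end Pool.Agent.H48Z.SmallFields
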