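import Mathlib

set_option autoImplicit false

namespace Pool.Agent.H48Z.TTO

open Matrix
open scoped Matrix.Norms.L2Operator

variable {n : ℕ}

/-- a matrix with all eigenvalues in the open disc has a power of operator norm less than one -/
lemma exists_pow_norm_lt (hn : 0 < n) (T : Matrix (Fin n) (Fin n) ℂ)
    (hT : ∀ μ : ℂ, ∀ x : Fin n → ℂ, x ≠ 0 → T *ᵥ x = μ • x → ‖μ‖ < 1) :
    ∃ j : ℕ, ‖T ^ j‖ < 1 := by
  have : Nonempty (Fin n) := ⟨⟨0, hn⟩⟩
  have h1 : spectralRadius ℂ T < ((1 : NNReal) : ENNReal) := by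
    apply spectrum.spectralRadius_lt_of_forall_lt
    intro z hz
    rw [spectrum.mem_iff, Matrix.isUnit_iff_isUnit_det, isUnit_iff_ne_zero, not_not,
      ← Matrix.exists_mulVec_eq_zero_iff] at hz
    obtain ⟨x, hx, hx0⟩ := hz
    have h2 : T *ᵥ x = z • x := by
      rw [Matrix.sub_mulVec, Algebra.algebraMap_eq_smul_one, Matrix.smul_mulVec,
        Matrix.one_mulVec, sub_eq_zero] at hx0
      exact hx0.symm
    have := hT z x hx h2
    exact_mod_cast this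
  have h2 := spectrum.pow_nnnorm_pow_one_div_tendsto_nhds_spectralRadius T
  have h3 := h2.eventually (gt_mem_nhds h1)
  obtain ⟨j, hj1, hj2⟩ := (h3.and (Filter.eventually_ge_atTop 1)).exists
  refine ⟨j, ?_⟩
  by_contra hcon
  rw [not_lt] at hcon
  have h4 : (1 : ENNReal) ≤ (‖T ^ j‖₊ : ENNReal) := by exact_mod_cast hcon
  have h5 : (1 : ENNReal) ≤ (‖T ^ j‖₊ : ENNReal) ^ (1 / j : ℝ) :=
    ENNReal.one_le_rpow h4 (by have : (0:ℝ) < j := by exact_mod_cast hj2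
                               positivity)
  exact absurd hj1 (not_lt.mpr (by simpa using h5))

/-- the Stein equation has only the trivial solution -/
lemma stein_inj (T : Matrix (Fin n) (Fin n) ℂ) (j : ℕ) (hj : ‖T ^ j‖ < 1)
    (X : Matrix (Fin n) (Fin n) ℂ) (hX : X = T * X * Tᴴ) : X = 0 := by
  have h1 : ∀ i : ℕ, X = T ^ i * X * (T ^ i)ᴴ := by
    intro i
    induction i with
    | zero => simp
    | succ i ih =>
      calc X = T * X * Tᴴ := hX
        _ = T * (T ^ i * X * (T ^ i)ᴴ) * Tᴴ := by rw [← ih]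
        _ = _ := by rw [pow_succ', Matrix.conjTranspose_mul]; simp only [Matrix.mul_assoc]
  have h2 : ‖X‖ ≤ ‖T ^ j‖ * ‖X‖ * ‖T ^ j‖ := by
    calc ‖X‖ = ‖T ^ j * X * (T ^ j)ᴴ‖ := by rw [← h1 j]
      _ ≤ ‖T ^ j * X‖ * ‖(T ^ j)ᴴ‖ := norm_mul_le _ _
      _ ≤ ‖T ^ j‖ * ‖X‖ * ‖T ^ j‖ := by
        rw [Matrix.l2_opNorm_conjTranspose]
        exact mul_le_mul_of_nonneg_right (norm_mul_le _ _) (norm_nonneg _)
  have h3 : ‖X‖ = 0 := by
    have h0 := norm_nonneg X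
    have h4 := norm_nonneg (T ^ j)
    have h5 : ‖T ^ j‖ * ‖T ^ j‖ < 1 := by nlinarith
    by_contra hne
    have h6 : 0 < ‖X‖ := lt_of_le_of_ne h0 (Ne.symm hne)
    nlinarith
  exact norm_eq_zero.mp h3

/-- the Krylov matrix with columns `T^j k` -/
def kry (T : Matrix (Fin n) (Fin n) ℂ) (k : Fin n → ℂ) : Matrix (Fin n) (Fin n) ℂ :=
  Matrix.of fun i j => (T ^ (j : ℕ) *ᵥ k) i

lemma kry_unit (T : Matrix (Fin n) (Fin n) ℂ) (k : Fin n → ℂ) (j : ℕ) (hj : ‖T ^ j‖ < 1)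
    (hk : 1 - T * Tᴴ = Matrix.vecMulVec k (star k)) : IsUnit (kry T k).det := by
  rw [isUnit_iff_ne_zero]
  intro hdet
  obtain ⟨w, hw, hw0⟩ := Matrix.exists_vecMul_eq_zero_iff.mpr hdet
  apply hw
  -- w annihilates `T^i k` for `i < n`, hence for all `i`
  have h1 : ∀ i : ℕ, i < n → w ⬝ᵥ (T ^ i *ᵥ k) = 0 := by
    intro i hi
    have := congrFun hw0 ⟨i, hi⟩
    simpa [Matrix.vecMul, kry, dotProduct] using this
  have h2 : ∀ i : ℕ, w ⬝ᵥ (T ^ i *ᵥ k) = 0 := by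
    intro i
    rcases Nat.eq_zero_or_pos n with hn | hn
    · subst hn
      simp [dotProduct]
    have hdeg : (Polynomial.X ^ i %ₘ T.charpoly).natDegree < n := by
      have h3 := Polynomial.natDegree_modByMonic_lt (Polynomial.X ^ i : Polynomial ℂ)
        T.charpoly_monic (by
          intro h
          have h4 := T.charpoly_natDegree_eq_dim
          rw [h] at h4
          simp at h4
          omega)
      rwa [T.charpoly_natDegree_eq_dim, Fintype.card_fin] at h3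
    rw [Matrix.pow_eq_aeval_mod_charpoly, Polynomial.aeval_eq_sum_range' hdeg,
      Matrix.sum_mulVec, dotProduct_sum]
    apply Finset.sum_eq_zero
    intro l hl
    rw [Matrix.smul_mulVec, dotProduct_smul, h1 l (Finset.mem_range.mp hl), smul_zero]
  have h3 : ∀ i : ℕ, w ᵥ* (T ^ i * (T ^ i)ᴴ) = w := by
    intro i
    induction i with
    | zero => simp
    | succ i ih =>
      have h4 : T * Tᴴ = 1 - Matrix.vecMulVec k (star k) := by rw [← hk]; simp
      have h5 : T ^ (i + 1) * (T ^ (i + 1))ᴴ =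
          T ^ i * (T ^ i)ᴴ - T ^ i * Matrix.vecMulVec k (star k) * (T ^ i)ᴴ := by
        rw [pow_succ, Matrix.conjTranspose_mul]
        calc T ^ i * T * (Tᴴ * (T ^ i)ᴴ) = T ^ i * (T * Tᴴ) * (T ^ i)ᴴ := by
              simp only [Matrix.mul_assoc]
          _ = _ := by rw [h4, Matrix.mul_sub, Matrix.sub_mul, Matrix.mul_one]
      rw [h5, Matrix.vecMul_sub, ih, Matrix.mul_vecMulVec, ← Matrix.vecMul_vecMul,
        Matrix.vecMul_vecMulVec, h2 i]
      simp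
  have h4 : ‖T ^ j * (T ^ j)ᴴ‖ < 1 := by
    calc ‖T ^ j * (T ^ j)ᴴ‖ ≤ ‖T ^ j‖ * ‖(T ^ j)ᴴ‖ := norm_mul_le _ _
      _ < 1 := by
        rw [Matrix.l2_opNorm_conjTranspose]
        have := norm_nonneg (T ^ j)
        nlinarith
  have h5 : IsUnit (1 - T ^ j * (T ^ j)ᴴ) := (Units.oneSub _ h4).isUnit
  have h6 : w ᵥ* (1 - T ^ j * (T ^ j)ᴴ) = 0 := by
    rw [Matrix.vecMul_sub, h3 j]; simp
  obtain ⟨u, hu⟩ := h5
  have h7 : w ᵥ* ((1 - T ^ j * (T ^ j)ᴴ) * (↑u⁻¹ : Matrix (Fin n) (Fin n) ℂ)) = 0 := by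
    rw [← Matrix.vecMul_vecMul, h6]; simp
  rw [← hu, Units.mul_inv] at h7
  simpa using h7

/-- packaged form, free of norms -/
theorem analytic (hn : 0 < n) (T : Matrix (Fin n) (Fin n) ℂ) (k : Fin n → ℂ)
    (hk : 1 - T * Tᴴ = Matrix.vecMulVec k (star k))
    (hT : ∀ μ : ℂ, ∀ x : Fin n → ℂ, x ≠ 0 → T *ᵥ x = μ • x → ‖μ‖ < 1) :
    IsUnit (kry T k).det ∧ ∀ X : Matrix (Fin n) (Fin n) ℂ, X = T * X * Tᴴ → X = 0 := by
  obtain ⟨j, hj⟩ := exists_pow_norm_lt hn T hT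
  exact ⟨kry_unit T k j hj hk, stein_inj T j hj⟩

end Pool.Agent.H48Z.TTO
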