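import Mathlib
import Pool.Agent.H48Z.TTOa

set_option autoImplicit false

namespace Pool.Agent.H48Z.TTO

open Matrix

variable {n : ℕ}

/-- matrices with all entries in the subfield `F` -/
def ent (F : Subfield ℂ) (n : ℕ) : Subring (Matrix (Fin n) (Fin n) ℂ) where
  carrier := {A | ∀ i j, A i j ∈ F}
  mul_mem' := by
    intro A B hA hB i j
    rw [Matrix.mul_apply]
    exact F.sum_mem fun l _ => F.mul_mem (hA i l) (hB l j)
  one_mem' := by
    intro i j
    rw [Matrix.one_apply]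
    split_ifs
    · exact F.one_mem
    · exact F.zero_mem
  add_mem' := by
    intro A B hA hB i j
    exact F.add_mem (hA i j) (hB i j)
  zero_mem' := by
    intro i j
    exact F.zero_mem
  neg_mem' := by
    intro A hA i j
    exact F.neg_mem (hA i j)

lemma mem_ent {F : Subfield ℂ} {A : Matrix (Fin n) (Fin n) ℂ} :
    A ∈ ent F n ↔ ∀ i j, A i j ∈ F := Iff.rfl

lemma exists_lift {F : Subfield ℂ} {A : Matrix (Fin n) (Fin n) ℂ} (hA : A ∈ ent F n) :
    ∃ A' : Matrix (Fin n) (Fin n) F, F.subtype.mapMatrix A' = A :=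
  ⟨Matrix.of fun i j => ⟨A i j, hA i j⟩, by ext i j; rfl⟩

lemma map_mem {F : Subfield ℂ} (A' : Matrix (Fin n) (Fin n) F) :
    F.subtype.mapMatrix A' ∈ ent F n := fun i j => (A' i j).2

/-- the unique solution of a linear matrix equation with coefficients in `F` has entries in `F` -/
lemma solve_mem {F : Subfield ℂ} {A B C D Y X : Matrix (Fin n) (Fin n) ℂ}
    (hA : A ∈ ent F n) (hB : B ∈ ent F n) (hC : C ∈ ent F n) (hD : D ∈ ent F n)
    (hY : Y ∈ ent F n)
    (hinj : ∀ Z : Matrix (Fin n) (Fin n) ℂ, A * Z * B - C * Z * D = 0 → Z = 0)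
    (hX : A * X * B - C * X * D = Y) : X ∈ ent F n := by
  obtain ⟨A', rfl⟩ := exists_lift hA
  obtain ⟨B', rfl⟩ := exists_lift hB
  obtain ⟨C', rfl⟩ := exists_lift hC
  obtain ⟨D', rfl⟩ := exists_lift hD
  obtain ⟨Y', rfl⟩ := exists_lift hY
  let L : Matrix (Fin n) (Fin n) F →ₗ[F] Matrix (Fin n) (Fin n) F :=
    { toFun := fun Z => A' * Z * B' - C' * Z * D'
      map_add' := by
        intro Z W
        simp only [Matrix.mul_add, Matrix.add_mul]
        abel
      map_smul' := by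
        intro c Z
        simp only [Matrix.mul_smul, Matrix.smul_mul, RingHom.id_apply, smul_sub] }
  have hmap : Function.Injective (F.subtype.mapMatrix :
      Matrix (Fin n) (Fin n) F → Matrix (Fin n) (Fin n) ℂ) := by
    intro Z W h
    ext i j
    exact congrFun (congrFun h i) j
  have hL : Function.Injective L := by
    rw [injective_iff_map_eq_zero]
    intro Z hZ
    apply hmap
    rw [map_zero]
    apply hinj
    have := congrArg F.subtype.mapMatrix hZ
    simpa only [L, LinearMap.coe_mk, AddHom.coe_mk, map_sub, map_mul, map_zero] using this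
  obtain ⟨X', hX'⟩ := LinearMap.injective_iff_surjective.mp hL Y'
  have h1 := congrArg F.subtype.mapMatrix hX'
  simp only [L, LinearMap.coe_mk, AddHom.coe_mk, map_sub, map_mul] at h1
  have h2 : X - F.subtype.mapMatrix X' = 0 := by
    apply hinj
    simp only [Matrix.mul_sub, Matrix.sub_mul]
    rw [← h1] at hX
    rw [← sub_eq_zero] at hX
    rw [← hX]
    abel
  rw [sub_eq_zero.mp h2]
  exact map_mem X'

/-- the data of the model give a small field over which `M` and `Mᴴ` are simultaneously defined -/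
theorem small_field (hn : 0 < n) (M T : Matrix (Fin n) (Fin n) ℂ) (k u v : Fin n → ℂ)
    (hk : 1 - T * Tᴴ = Matrix.vecMulVec k (star k))
    (hT : ∀ μ : ℂ, ∀ x : Fin n → ℂ, x ≠ 0 → T *ᵥ x = μ • x → ‖μ‖ < 1)
    (hM : M - T * M * Tᴴ = Matrix.vecMulVec u (star k) + Matrix.vecMulVec k (star v)) :
    ∃ (g : Fin 6 × Fin n → ℂ) (R S : Matrix (Fin n) (Fin n) ℂ), R * S = 1 ∧ S * R = 1 ∧
      ∀ F : Subfield ℂ, (∀ a, g a ∈ F) → S * M * R ∈ ent F n ∧ S * Mᴴ * R ∈ ent F n := by
  obtain ⟨hunit, hstein⟩ := analytic hn T k hk hT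
  set R := kry T k with hR
  set S := R⁻¹ with hS
  have hRS : R * S = 1 := Matrix.mul_nonsing_inv R hunit
  have hSR : S * R = 1 := Matrix.nonsing_inv_mul R hunit
  have hRS' : Sᴴ * Rᴴ = 1 := by rw [← Matrix.conjTranspose_mul, hRS, Matrix.conjTranspose_one]
  have hSR' : Rᴴ * Sᴴ = 1 := by rw [← Matrix.conjTranspose_mul, hSR, Matrix.conjTranspose_one]
  set C := S * T * R with hC
  let last : Fin n := ⟨n - 1, by omega⟩
  let e0 : Fin n → ℂ := Pi.single ⟨0, hn⟩ 1
  have hcol : ∀ j : Fin n, R *ᵥ (Pi.single j 1) = T ^ (j : ℕ) *ᵥ k := by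
    intro j
    funext i
    simp [hR, kry]
  have hSk : S *ᵥ k = e0 := by
    have h1 := hcol ⟨0, hn⟩
    simp only [pow_zero, Matrix.one_mulVec] at h1
    rw [← h1, Matrix.mulVec_mulVec, hSR, Matrix.one_mulVec]
  have hCcol : ∀ j : Fin n, ∀ hj : (j : ℕ) + 1 < n, ∀ i, C i j = (Pi.single (⟨j + 1, hj⟩ : Fin n) 1 : Fin n → ℂ) i := by
    intro j hj i
    have h1 : C *ᵥ (Pi.single j 1) = Pi.single (⟨j + 1, hj⟩ : Fin n) 1 := by
      rw [hC, ← Matrix.mulVec_mulVec, ← Matrix.mulVec_mulVec, hcol j, Matrix.mulVec_mulVec k T,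
        ← pow_succ']
      have h2 := hcol ⟨j + 1, hj⟩
      simp only at h2
      rw [← h2, Matrix.mulVec_mulVec, hSR, Matrix.one_mulVec]
    have h3 := congrFun h1 i
    rwa [Matrix.mulVec_single_one] at h3
  let g : Fin 6 × Fin n → ℂ := fun a =>
    ![C a.2 last, star (C a.2 last), (S *ᵥ u) a.2, star ((S *ᵥ u) a.2),
      (S *ᵥ v) a.2, star ((S *ᵥ v) a.2)] a.1
  refine ⟨g, R, S, hRS, hSR, fun F hg => ?_⟩
  have hsingle : ∀ (a i : Fin n), (Pi.single a 1 : Fin n → ℂ) i ∈ F ∧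
      star ((Pi.single a 1 : Fin n → ℂ) i) ∈ F := by
    intro a i
    rw [Pi.single_apply]
    split_ifs
    · simp
    · simp
  have hCF : ∀ i j, C i j ∈ F ∧ star (C i j) ∈ F := by
    intro i j
    by_cases hj : (j : ℕ) + 1 < n
    · rw [hCcol j hj i]
      exact hsingle _ _
    · have hjl : j = last := by
        apply Fin.ext
        have := j.2
        simp only [last]
        omega
      rw [hjl]
      exact ⟨hg (0, i), hg (1, i)⟩
  have hC1 : C ∈ ent F n := fun i j => (hCF i j).1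
  have hC2 : Cᴴ ∈ ent F n := fun i j => (hCF j i).2
  have hvv : ∀ a b : Fin n → ℂ, (∀ i, a i ∈ F) → (∀ i, star (b i) ∈ F) →
      Matrix.vecMulVec a (star b) ∈ ent F n := by
    intro a b ha hb i j
    rw [Matrix.vecMulVec_apply]
    exact F.mul_mem (ha i) (hb j)
  have hconj : ∀ a b : Fin n → ℂ, S * Matrix.vecMulVec a (star b) * Sᴴ =
      Matrix.vecMulVec (S *ᵥ a) (star (S *ᵥ b)) := by
    intro a b
    rw [Matrix.mul_vecMulVec, Matrix.vecMulVec_mul, Matrix.star_mulVec]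
  have htr : ∀ X : Matrix (Fin n) (Fin n) ℂ,
      1 * (S * X * Sᴴ) * 1 - C * (S * X * Sᴴ) * Cᴴ = S * (X - T * X * Tᴴ) * Sᴴ := by
    intro X
    rw [hC]
    simp only [Matrix.conjTranspose_mul, Matrix.mul_sub, Matrix.sub_mul, Matrix.one_mul,
      Matrix.mul_one, Matrix.mul_assoc]
    rw [← Matrix.mul_assoc R S, hRS, Matrix.one_mul, ← Matrix.mul_assoc Sᴴ Rᴴ, hRS',
      Matrix.one_mul]
  have hinj : ∀ Z : Matrix (Fin n) (Fin n) ℂ, 1 * Z * 1 - C * Z * Cᴴ = 0 → Z = 0 := by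
    intro Z hZ
    have h1 : Z = S * (R * Z * Rᴴ) * Sᴴ := by
      simp only [Matrix.mul_assoc]
      rw [hSR', Matrix.mul_one, ← Matrix.mul_assoc, hSR, Matrix.one_mul]
    rw [h1, htr] at hZ
    have h2 : R * Z * Rᴴ - T * (R * Z * Rᴴ) * Tᴴ = 0 := by
      have h3 := congrArg (fun W => R * W * Rᴴ) hZ
      simp only [Matrix.mul_zero, Matrix.zero_mul] at h3
      rw [← h3]
      generalize R * Z * Rᴴ - T * (R * Z * Rᴴ) * Tᴴ = W
      simp only [Matrix.mul_assoc]
      rw [hRS', Matrix.mul_one, ← Matrix.mul_assoc, hRS, Matrix.one_mul]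
    rw [h1, hstein _ (sub_eq_zero.mp h2)]
    simp
  have hone : (1 : Matrix (Fin n) (Fin n) ℂ) ∈ ent F n := (ent F n).one_mem
  have he0 : ∀ i, e0 i ∈ F := fun i => (hsingle _ i).1
  have he0' : ∀ i, star (e0 i) ∈ F := fun i => (hsingle _ i).2
  have hP : S * 1 * Sᴴ ∈ ent F n := by
    refine solve_mem hone hone hC1 hC2 (hvv e0 e0 he0 he0') hinj ?_
    rw [htr, Matrix.mul_one, hk, hconj, hSk]
  have hN : S * M * Sᴴ ∈ ent F n := by
    refine solve_mem hone hone hC1 hC2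
      ((ent F n).add_mem (hvv (S *ᵥ u) e0 (fun i => hg (2, i)) he0')
        (hvv e0 (S *ᵥ v) he0 (fun i => hg (5, i)))) hinj ?_
    rw [htr, hM, Matrix.mul_add, Matrix.add_mul, hconj, hconj, hSk]
  have hM' : Mᴴ - T * Mᴴ * Tᴴ = Matrix.vecMulVec v (star k) + Matrix.vecMulVec k (star u) := by
    have h1 := congrArg Matrix.conjTranspose hM
    simp only [Matrix.conjTranspose_sub, Matrix.conjTranspose_mul, Matrix.conjTranspose_add,
      Matrix.conjTranspose_conjTranspose, Matrix.conjTranspose_vecMulVec, star_star] at h1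
    rw [Matrix.mul_assoc, h1, add_comm]
  have hN' : S * Mᴴ * Sᴴ ∈ ent F n := by
    refine solve_mem hone hone hC1 hC2
      ((ent F n).add_mem (hvv (S *ᵥ v) e0 (fun i => hg (4, i)) he0')
        (hvv e0 (S *ᵥ u) he0 (fun i => hg (3, i)))) hinj ?_
    rw [htr, hM', Matrix.mul_add, Matrix.add_mul, hconj, hconj, hSk]
  have hzero : (0 : Matrix (Fin n) (Fin n) ℂ) ∈ ent F n := (ent F n).zero_mem
  have hinj2 : ∀ Z : Matrix (Fin n) (Fin n) ℂ, 1 * Z * (S * 1 * Sᴴ) - 0 * Z * 0 = 0 → Z = 0 := by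
    intro Z hZ
    have h3 := congrArg (fun W => W * (Rᴴ * R)) hZ
    simp only [Matrix.mul_zero, Matrix.zero_mul, sub_zero, Matrix.one_mul, Matrix.mul_one,
      Matrix.mul_assoc] at h3
    rwa [← Matrix.mul_assoc Sᴴ, hRS', Matrix.one_mul, hSR, Matrix.mul_one] at h3
  have hfin : ∀ X : Matrix (Fin n) (Fin n) ℂ, S * X * Sᴴ ∈ ent F n → S * X * R ∈ ent F n := by
    intro X hX
    refine solve_mem hone hP hzero hzero hX hinj2 ?_
    simp only [Matrix.mul_zero, sub_zero, Matrix.one_mul, Matrix.mul_one, Matrix.mul_assoc]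
    rw [← Matrix.mul_assoc R, hRS, Matrix.one_mul]
  exact ⟨hfin M hN, hfin Mᴴ hN'⟩

end Pool.Agent.H48Z.TTO
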