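import Mathlib
import Pool.Agent.H48Z.TTOb

set_option autoImplicit false

namespace Pool.Agent.H48Z.TTO

open Matrix

/-- the diagonal entries -/
def dd (i : Fin 12) : ℂ := 10000 * ((i : ℕ) : ℂ)

/-- the test matrix `D + i K` -/
noncomputable def MM (K : Fin 12 → Fin 12 → ℝ) : Matrix (Fin 12) (Fin 12) ℂ :=
  Matrix.diagonal dd + Matrix.of fun i j => Complex.I * (K i j : ℂ)

lemma dd_gap {i j : Fin 12} (h : i ≠ j) : 10000 ≤ ‖dd i - dd j‖ := by
  have h1 : dd i - dd j = ((10000 * (((i : ℕ) : ℤ) - ((j : ℕ) : ℤ)) : ℤ) : ℂ) := by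
    unfold dd; push_cast; ring
  rw [h1, Complex.norm_intCast]
  have h2 : ((i : ℕ) : ℤ) - ((j : ℕ) : ℤ) ≠ 0 := by
    intro h3
    apply h
    apply Fin.ext
    omega
  have h3 : (10000 : ℤ) ≤ |10000 * (((i : ℕ) : ℤ) - ((j : ℕ) : ℤ))| := by
    rw [abs_mul]
    have := Int.one_le_abs h2
    have h5 : |(10000 : ℤ)| = 10000 := by norm_num
    rw [h5]
    linarith
  exact_mod_cast h3

lemma MM_apply (K : Fin 12 → Fin 12 → ℝ) (i j : Fin 12) :
    MM K i j = (if i = j then dd i else 0) + Complex.I * (K i j : ℂ) := by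
  simp [MM, Matrix.diagonal_apply]

lemma MM_symm (K : Fin 12 → Fin 12 → ℝ) (hK : ∀ i j, K i j = K j i) : (MM K)ᵀ = MM K := by
  ext i j
  rw [Matrix.transpose_apply, MM_apply, MM_apply, hK i j]
  by_cases h : i = j
  · subst h; rfl
  · rw [if_neg h, if_neg (Ne.symm h)]

lemma star_dd (i : Fin 12) : star (dd i) = dd i := by
  simp [dd]

lemma MM_sub (K : Fin 12 → Fin 12 → ℝ) (hK : ∀ i j, K i j = K j i) (i j : Fin 12) :
    (MM K - (MM K)ᴴ) i j = 2 * Complex.I * (K i j : ℂ) := by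
  rw [Matrix.sub_apply, Matrix.conjTranspose_apply, MM_apply, MM_apply, hK j i]
  by_cases h : i = j
  · subst h
    simp only [if_true, star_add, star_dd, star_mul', Complex.star_def, Complex.conj_I,
      Complex.conj_ofReal]
    ring
  · rw [if_neg h, if_neg (Ne.symm h)]
    simp only [zero_add, star_mul', Complex.star_def, Complex.conj_I, Complex.conj_ofReal]
    ring

lemma MM_add (K : Fin 12 → Fin 12 → ℝ) (hK : ∀ i j, K i j = K j i) :
    MM K + (MM K)ᴴ = Matrix.diagonal (fun i => 2 * dd i) := by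
  ext i j
  rw [Matrix.add_apply, Matrix.conjTranspose_apply, MM_apply, MM_apply, hK j i,
    Matrix.diagonal_apply]
  by_cases h : i = j
  · subst h
    simp only [if_true, star_add, star_mul', Complex.star_def, Complex.conj_I,
      Complex.conj_ofReal]
    have := star_dd i
    rw [Complex.star_def] at this
    rw [this]
    ring
  · rw [if_neg h, if_neg (Ne.symm h), if_neg h]
    simp only [zero_add, star_mul', Complex.star_def, Complex.conj_I, Complex.conj_ofReal]
    ring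

/-- eigenvectors are concentrated at one coordinate -/
lemma eig_conc (K : Fin 12 → Fin 12 → ℝ) (hK : ∀ i j, 1 ≤ K i j ∧ K i j ≤ 2)
    (x : Fin 12 → ℂ) (a : ℂ) (hx : x ≠ 0) (hMx : MM K *ᵥ x = a • x) :
    ∃ p : Fin 12, 0 < ‖x p‖ ∧ ∀ i, i ≠ p → ‖x i‖ ≤ ‖x p‖ / 400 := by
  obtain ⟨p, hp⟩ := Finite.exists_max (fun i => ‖x i‖)
  have hpos : 0 < ‖x p‖ := by
    by_contra hcon
    rw [not_lt] at hcon
    apply hx
    funext i
    have := (hp i).trans hcon
    exact norm_le_zero_iff.mp this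
  have hrow : ∀ i, ‖dd i - a‖ * ‖x i‖ ≤ 24 * ‖x p‖ := by
    intro i
    have h1 := congrFun hMx i
    have h2 : (MM K *ᵥ x) i = dd i * x i + ∑ j, Complex.I * (K i j : ℂ) * x j := by
      simp only [MM, Matrix.add_mulVec, Pi.add_apply, Matrix.mulVec_diagonal]
      simp [Matrix.mulVec, dotProduct]
    rw [h2, Pi.smul_apply, smul_eq_mul] at h1
    have h3 : (dd i - a) * x i = - ∑ j, Complex.I * (K i j : ℂ) * x j := by
      linear_combination h1
    rw [← norm_mul, h3, norm_neg]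
    calc ‖∑ j, Complex.I * (K i j : ℂ) * x j‖ ≤ ∑ j, ‖Complex.I * (K i j : ℂ) * x j‖ :=
          norm_sum_le _ _
      _ ≤ ∑ _j : Fin 12, 2 * ‖x p‖ := by
          apply Finset.sum_le_sum
          intro j _
          rw [norm_mul, norm_mul, Complex.norm_I, one_mul, Complex.norm_real, Real.norm_eq_abs,
            abs_of_nonneg (by linarith [(hK i j).1])]
          exact mul_le_mul (hK i j).2 (hp j) (norm_nonneg _) (by norm_num)
      _ = 24 * ‖x p‖ := by simp; ring
  have hpa : ‖dd p - a‖ ≤ 24 := le_of_mul_le_mul_right (hrow p) hpos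
  refine ⟨p, hpos, fun i hi => ?_⟩
  have h1 := dd_gap hi
  have h2 : ‖dd i - dd p‖ ≤ ‖dd i - a‖ + ‖dd p - a‖ := by
    have : dd i - dd p = (dd i - a) - (dd p - a) := by ring
    rw [this]
    exact norm_sub_le _ _
  have h3 : 9976 ≤ ‖dd i - a‖ := by linarith
  have h4 := hrow i
  have h5 := norm_nonneg (x i)
  nlinarith

theorem no_orth (K : Fin 12 → Fin 12 → ℝ) (hs : ∀ i j, K i j = K j i)
    (hK : ∀ i j, 1 ≤ K i j ∧ K i j ≤ 2) :
    ¬ ∃ x y : Fin 12 → ℂ, ∃ a b : ℂ, x ≠ 0 ∧ y ≠ 0 ∧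
      MM K *ᵥ x = a • x ∧ MM K *ᵥ y = b • y ∧ star x ⬝ᵥ y = 0 := by
  rintro ⟨x, y, a, b, hx, hy, hMx, hMy, hxy⟩
  obtain ⟨p, hp0, hp⟩ := eig_conc K hK x a hx hMx
  obtain ⟨q, hq0, hq⟩ := eig_conc K hK y b hy hMy
  have h1 : star x ⬝ᵥ (MM K *ᵥ y) = 0 := by rw [hMy, dotProduct_smul, hxy, smul_zero]
  have h2 : star x ⬝ᵥ ((MM K)ᴴ *ᵥ y) = 0 := by
    rw [Matrix.dotProduct_mulVec, ← Matrix.star_mulVec, hMx, star_smul, smul_dotProduct, hxy,
      smul_zero]
  have h3 : star x ⬝ᵥ ((MM K - (MM K)ᴴ) *ᵥ y) = 0 := by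
    rw [Matrix.sub_mulVec, dotProduct_sub, h1, h2, sub_zero]
  let t : Fin 12 × Fin 12 → ℂ := fun c => star (x c.1) * (K c.1 c.2 : ℂ) * y c.2
  have h4 : ∑ c, t c = 0 := by
    have h5 : star x ⬝ᵥ ((MM K - (MM K)ᴴ) *ᵥ y) = 2 * Complex.I * ∑ c, t c := by
      simp only [dotProduct, Matrix.mulVec, MM_sub K hs, t, Fintype.sum_prod_type, Finset.mul_sum,
        Pi.star_apply]
      refine Finset.sum_congr rfl fun i _ => Finset.sum_congr rfl fun j _ => ?_
      ring
    rw [h5] at h3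
    rcases mul_eq_zero.mp h3 with h | h
    · exact absurd h (by simp)
    · exact h
  have hnorm : ∀ c : Fin 12 × Fin 12, ‖t c‖ = ‖x c.1‖ * K c.1 c.2 * ‖y c.2‖ := by
    intro c
    simp only [t, norm_mul, norm_star, Complex.norm_real, Real.norm_eq_abs]
    rw [abs_of_nonneg (by linarith [(hK c.1 c.2).1])]
  have hxle : ∀ i, ‖x i‖ ≤ ‖x p‖ := by
    intro i
    by_cases h : i = p
    · rw [h]
    · linarith [hp i h]
  have hyle : ∀ i, ‖y i‖ ≤ ‖y q‖ := by
    intro i
    by_cases h : i = q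
    · rw [h]
    · linarith [hq i h]
  have hsmall : ∀ c ∈ (Finset.univ : Finset (Fin 12 × Fin 12)).erase (p, q),
      ‖t c‖ ≤ ‖x p‖ * ‖y q‖ / 200 := by
    intro c hc
    have hne : c ≠ (p, q) := (Finset.mem_erase.mp hc).1
    rw [hnorm]
    have hk1 := (hK c.1 c.2).1
    have hk2 := (hK c.1 c.2).2
    have hx0 := norm_nonneg (x c.1)
    have hy0 := norm_nonneg (y c.2)
    have hxy2 : ‖x c.1‖ * ‖y c.2‖ ≤ ‖x p‖ * ‖y q‖ / 400 := by
      by_cases h : c.1 = p
      · have h' : c.2 ≠ q := fun h' => hne (Prod.ext h h')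
        calc ‖x c.1‖ * ‖y c.2‖ ≤ ‖x p‖ * (‖y q‖ / 400) :=
              mul_le_mul (hxle _) (hq _ h') hy0 hp0.le
          _ = _ := by ring
      · calc ‖x c.1‖ * ‖y c.2‖ ≤ (‖x p‖ / 400) * ‖y q‖ :=
              mul_le_mul (hp _ h) (hyle _) hy0 (by positivity)
          _ = _ := by ring
    have h0 : 0 ≤ ‖x c.1‖ * ‖y c.2‖ := mul_nonneg hx0 hy0
    nlinarith
  have h6 : t (p, q) = - ∑ c ∈ (Finset.univ : Finset (Fin 12 × Fin 12)).erase (p, q), t c := by
    rw [← Finset.add_sum_erase _ _ (Finset.mem_univ (p, q))] at h4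
    linear_combination h4
  have h7 : ‖t (p, q)‖ ≤ 143 * (‖x p‖ * ‖y q‖ / 200) := by
    rw [h6, norm_neg]
    refine (norm_sum_le _ _).trans ((Finset.sum_le_sum hsmall).trans ?_)
    rw [Finset.sum_const, Finset.card_erase_of_mem (Finset.mem_univ _)]
    simp
  rw [hnorm] at h7
  have h8 := (hK p q).1
  have h9 : 0 < ‖x p‖ * ‖y q‖ := mul_pos hp0 hq0
  simp only at h7
  nlinarith

/-- the squares of the entries of `K` lie in any field of simultaneous definition -/
theorem sq_mem (K : Fin 12 → Fin 12 → ℝ) (hs : ∀ i j, K i j = K j i)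
    (R S : Matrix (Fin 12) (Fin 12) ℂ) (hRS : R * S = 1) (hSR : S * R = 1) (F : Subfield ℂ)
    (h1 : S * MM K * R ∈ ent F 12) (h2 : S * (MM K)ᴴ * R ∈ ent F 12) (i j : Fin 12) :
    ((K i j : ℂ)) ^ 2 ∈ F := by
  let φ : Matrix (Fin 12) (Fin 12) ℂ →+* Matrix (Fin 12) (Fin 12) ℂ :=
    { toFun := fun X => S * X * R
      map_one' := by rw [Matrix.mul_one, hSR]
      map_mul' := by
        intro X Y
        simp only [Matrix.mul_assoc]
        rw [← Matrix.mul_assoc R S, hRS, Matrix.one_mul]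
      map_zero' := by simp
      map_add' := by
        intro X Y
        simp only [Matrix.mul_add, Matrix.add_mul] }
  let A : Subring (Matrix (Fin 12) (Fin 12) ℂ) := (ent F 12).comap φ
  have hA1 : MM K ∈ A := h1
  have hA2 : (MM K)ᴴ ∈ A := h2
  let B : Subring (Fin 12 → ℂ) := A.comap (Matrix.diagonalRingHom (Fin 12) ℂ)
  have hconst : ∀ c ∈ F, (fun _ => c : Fin 12 → ℂ) ∈ B := by
    intro c hc
    change S * Matrix.diagonal (fun _ => c) * R ∈ ent F 12
    have : S * Matrix.diagonal (fun _ => c) * R = Matrix.diagonal (fun _ => c) := by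
      rw [← Matrix.smul_one_eq_diagonal, Matrix.mul_smul, Matrix.smul_mul, Matrix.mul_one, hSR]
    rw [this]
    intro a b
    rw [Matrix.diagonal_apply]
    split_ifs
    · exact hc
    · exact F.zero_mem
  have hdd : ∀ l, dd l ∈ F := by
    intro l
    unfold dd
    exact F.mul_mem (by simp) (natCast_mem F _)
  have h2F : (2 : ℂ) ∈ F := by simp
  have hD : (fun l => 2 * dd l) ∈ B := by
    change Matrix.diagonal (fun l => 2 * dd l) ∈ A
    rw [← MM_add K hs]
    exact A.add_mem hA1 hA2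
  have hE : ∀ l : Fin 12, (Pi.single l 1 : Fin 12 → ℂ) ∈ B := by
    intro l
    have h3 : (Pi.single l 1 : Fin 12 → ℂ) = ∏ m ∈ Finset.univ.erase l,
        (((fun a => 2 * dd a) - fun _ => 2 * dd m) * fun _ => (2 * dd l - 2 * dd m)⁻¹) := by
      funext a
      rw [Finset.prod_apply]
      by_cases ha : a = l
      · subst ha
        rw [Pi.single_eq_same]
        symm
        apply Finset.prod_eq_one
        intro m hm
        have hne : a ≠ m := (Finset.mem_erase.mp hm).1.symm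
        have h4 : 2 * dd a - 2 * dd m ≠ 0 := by
          intro h5
          have h6 := dd_gap hne
          have h7 : dd a - dd m = 0 := by linear_combination h5 / 2
          rw [h7, norm_zero] at h6
          norm_num at h6
        simp only [Pi.mul_apply, Pi.sub_apply]
        exact mul_inv_cancel₀ h4
      · rw [Pi.single_eq_of_ne ha]
        symm
        apply Finset.prod_eq_zero (Finset.mem_erase.mpr ⟨ha, Finset.mem_univ a⟩)
        simp
    rw [h3]
    apply B.prod_mem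
    intro m _
    exact B.mul_mem (B.sub_mem hD (hconst _ (F.mul_mem h2F (hdd m))))
      (hconst _ (F.inv_mem (F.sub_mem (F.mul_mem h2F (hdd l)) (F.mul_mem h2F (hdd m)))))
  have htr : ∀ X ∈ A, Matrix.trace X ∈ F := by
    intro X hX
    have h3 : Matrix.trace X = Matrix.trace (S * X * R) := by
      rw [Matrix.trace_mul_comm, ← Matrix.mul_assoc, hRS, Matrix.one_mul]
    rw [h3]
    exact F.sum_mem fun a _ => hX a a
  set W := MM K - (MM K)ᴴ with hW
  have hWA : W ∈ A := A.sub_mem hA1 hA2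
  have hEi : Matrix.diagonal (Pi.single i 1 : Fin 12 → ℂ) ∈ A := hE i
  have hEj : Matrix.diagonal (Pi.single j 1 : Fin 12 → ℂ) ∈ A := hE j
  have h5 := htr _ (A.mul_mem (A.mul_mem hEi hWA) (A.mul_mem hEj hWA))
  have h6 : Matrix.trace (Matrix.diagonal (Pi.single i 1 : Fin 12 → ℂ) * W *
      (Matrix.diagonal (Pi.single j 1 : Fin 12 → ℂ) * W)) = W i j * W j i := by
    simp only [Matrix.trace, Matrix.diag_apply]
    rw [Finset.sum_eq_single i]
    · rw [Matrix.mul_apply, Finset.sum_eq_single j]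
      · simp [Matrix.diagonal_mul]
      · intro b _ hb
        simp [Matrix.diagonal_mul, Pi.single_eq_of_ne hb]
      · simp
    · intro a _ ha
      rw [Matrix.mul_assoc, Matrix.diagonal_mul, Pi.single_eq_of_ne ha, zero_mul]
    · simp
  rw [h6, hW, MM_sub K hs, MM_sub K hs, hs j i] at h5
  have h7 : ((K i j : ℂ)) ^ 2 = -(2 * Complex.I * (K i j : ℂ) * (2 * Complex.I * (K i j : ℂ))) *
      (2 * 2)⁻¹ := by
    have := Complex.I_mul_I
    field_simp
    linear_combination ((K i j : ℂ) ^ 2) * this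
  rw [h7]
  exact F.mul_mem (F.neg_mem h5) (F.inv_mem (F.mul_mem h2F h2F))

end Pool.Agent.H48Z.TTO
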