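import Mathlib
import Pool.Agent.H48Z.TTOc

set_option autoImplicit false

namespace Pool.Agent.H48Z.TTO

open Cardinal

/-- arbitrarily many algebraically independent reals in `[1, 2]` -/
theorem exists_indep (ι : Type) [Fintype ι] :
    ∃ z : ι → ℝ, AlgebraicIndependent ℚ z ∧ ∀ a, 1 ≤ z a ∧ z a ≤ 2 := by
  obtain ⟨s, hs⟩ := exists_isTranscendenceBasis ℚ ℝ
  have hinf : Infinite s := by
    by_contra hfin
    rw [not_infinite_iff_finite] at hfin
    rcases isEmpty_or_nonempty s with he | hne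
    · have halg : Algebra.IsAlgebraic ℚ ℝ := hs.isEmpty_iff_isAlgebraic.mp he
      have h1 := Algebra.IsAlgebraic.cardinalMk_le_max ℚ ℝ
      rw [Cardinal.mk_real, Cardinal.mkRat, max_self] at h1
      exact absurd h1 (not_le.mpr Cardinal.aleph0_lt_continuum)
    · have h1 := hs.lift_cardinalMk_eq_max_lift
      simp only [Cardinal.lift_id, Cardinal.mk_real, Cardinal.mkRat] at h1
      have h2 : #s ≤ ℵ₀ := (Cardinal.lt_aleph0_of_finite s).le
      have h3 : (𝔠 : Cardinal) ≤ ℵ₀ := by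
        rw [h1]
        exact sup_le (sup_le le_rfl h2) le_rfl
      exact absurd h3 (not_le.mpr Cardinal.aleph0_lt_continuum)
  let e : ι ↪ s := (Fintype.equivFin ι).toEmbedding.trans
    (Fin.valEmbedding.trans (Infinite.natEmbedding s))
  have h1 : AlgebraicIndependent ℚ (fun a : ι => ((e a : s) : ℝ)) := hs.1.comp e e.injective
  have h2 := h1.polynomial_aeval_of_transcendental
    (f := fun a => Polynomial.X - Polynomial.C ((⌊((e a : s) : ℝ)⌋ : ℚ) - 1)) (by
      intro a
      apply Polynomial.transcendental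
      · rw [Polynomial.natDegree_X_sub_C]; norm_num
      · rw [Polynomial.leadingCoeff_X_sub_C]; exact one_mem _)
  refine ⟨_, h2, fun a => ?_⟩
  simp only [map_sub, Polynomial.aeval_X, map_one, map_intCast]
  have h3 := Int.floor_le ((e a : s) : ℝ)
  have h4 := Int.lt_floor_add_one ((e a : s) : ℝ)
  constructor <;> linarith

/-- an algebraically independent family whose squares lie in the field generated by `g` is not
larger than `g` -/
theorem card_le {ι κ : Type} [Fintype ι] [Fintype κ] (z : ι → ℂ) (hz : AlgebraicIndependent ℚ z)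
    (g : κ → ℂ) (h : ∀ F : Subfield ℂ, (∀ a, g a ∈ F) → ∀ i, z i ^ 2 ∈ F) :
    Fintype.card ι ≤ Fintype.card κ := by
  let E := IntermediateField.adjoin ℚ (Set.range g)
  have h1 : ∀ i, z i ^ 2 ∈ E := h E.toSubfield
    (fun a => IntermediateField.subset_adjoin ℚ (Set.range g) ⟨a, rfl⟩)
  have h2 : Set.range z ⊆ (AlgebraicIndependent.matroid ℚ ℂ).closure (Set.range g) := by
    rintro _ ⟨i, rfl⟩
    rw [AlgebraicIndependent.matroid_closure_eq, SetLike.mem_coe, Subalgebra.mem_algebraicClosure,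
      ← IntermediateField.isAlgebraic_adjoin_iff]
    apply IsAlgebraic.of_pow (n := 2) (by norm_num)
    exact isAlgebraic_algebraMap (⟨z i ^ 2, h1 i⟩ : E)
  have h3 : (AlgebraicIndependent.matroid ℚ ℂ).Indep (Set.range z) := hz.to_subtype_range
  have h4 := h3.encard_le_eRk_of_subset h2
  rw [Matroid.eRk_closure_eq] at h4
  have h5 := h4.trans (Matroid.eRk_le_encard _ _)
  have h6 : (Set.range z).encard = Fintype.card ι := by
    rw [← Set.image_univ, hz.injective.encard_image, Set.encard_univ, ENat.card_eq_coe_fintype_card]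
  have h7 : (Set.range g).encard ≤ Fintype.card κ := by
    rw [← Set.image_univ]
    refine (Set.encard_image_le _ _).trans ?_
    rw [Set.encard_univ, ENat.card_eq_coe_fintype_card]
  rw [h6] at h5
  exact_mod_cast h5.trans h7

open Matrix in
theorem main : ∃ M : Matrix (Fin 12) (Fin 12) ℂ, Mᵀ = M ∧
    (¬ ∃ x y : Fin 12 → ℂ, ∃ a b : ℂ, x ≠ 0 ∧ y ≠ 0 ∧
      M *ᵥ x = a • x ∧ M *ᵥ y = b • y ∧ star x ⬝ᵥ y = 0) ∧
    ¬ ∃ T : Matrix (Fin 12) (Fin 12) ℂ, ∃ k u v : Fin 12 → ℂ,
        1 - T * Tᴴ = Matrix.vecMulVec k (star k) ∧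
        (∀ μ : ℂ, ∀ x : Fin 12 → ℂ, x ≠ 0 → T *ᵥ x = μ • x → ‖μ‖ < 1) ∧
        M - T * M * Tᴴ = Matrix.vecMulVec u (star k) + Matrix.vecMulVec k (star v) := by
  classical
  obtain ⟨z, hz, hz12⟩ := exists_indep (Sym2 (Fin 12))
  let K : Fin 12 → Fin 12 → ℝ := fun i j => z s(i, j)
  have hs : ∀ i j, K i j = K j i := fun i j => by simp only [K, Sym2.eq_swap]
  refine ⟨MM K, MM_symm K hs, no_orth K hs (fun i j => hz12 _), ?_⟩
  rintro ⟨T, k, u, v, hk, hT, hM⟩
  obtain ⟨g, R, S, hRS, hSR, hF⟩ := small_field (by norm_num) (MM K) T k u v hk hT hM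
  have hz' : AlgebraicIndependent ℚ (fun a => ((z a : ℝ) : ℂ)) :=
    hz.map' (f := (Complex.ofRealAm.restrictScalars ℚ)) Complex.ofReal_injective
  have h1 := card_le _ hz' g (by
    intro F hg a
    induction a using Sym2.ind with
    | _ i j => exact sq_mem K hs R S hRS hSR F (hF F hg).1 (hF F hg).2 i j)
  rw [Sym2.card] at h1
  simp only [Fintype.card_fin, Fintype.card_prod] at h1
  revert h1
  decide

end Pool.Agent.H48Z.TTO
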